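import Mathlib

/-!
# TOS/Dyadic: a set with counting function `O(x / (log x) ^ (3/2))` has a convergent sum of reciprocals
-/

set_option autoImplicit false

namespace Pool.Agent.TOS

open Finset

/-- a dyadic block -/
theorem dyadic_block_le (E : Set ℕ) (C : ℝ) (h : ∀ x : ℕ, 3 ≤ x →
    (((E ∩ Set.Icc 1 x).ncard : ℕ) : ℝ) ≤ C * (x / Real.log x ^ (3 / 2 : ℝ))) (i : ℕ) (hi : 1 ≤ i) :
    ∑ n ∈ Ico (2 ^ i) (2 ^ (i + 1)), E.indicator (fun n : ℕ => 1 / (n : ℝ)) n ≤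
      (2 * |C| / Real.log 2 ^ (3 / 2 : ℝ)) * (1 / (((i + 1 : ℕ) : ℝ)) ^ (3 / 2 : ℝ)) := by
  classical
  have hl2 : 0 < Real.log 2 := Real.log_pos (by norm_num)
  have h0 : 3 ≤ 2 ^ (i + 1) := by
    have : 2 ^ 2 ≤ 2 ^ (i + 1) := Nat.pow_le_pow_right (by norm_num) (by omega)
    omega
  have h1 := h (2 ^ (i + 1)) h0
  have h2 : ∑ n ∈ Ico (2 ^ i) (2 ^ (i + 1)), E.indicator (fun n : ℕ => 1 / (n : ℝ)) n ≤
      ((E ∩ Set.Icc 1 (2 ^ (i + 1))).ncard : ℝ) * (1 / 2 ^ i) := by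
    have h3 : ∑ n ∈ Ico (2 ^ i) (2 ^ (i + 1)), E.indicator (fun n : ℕ => 1 / (n : ℝ)) n =
        ∑ n ∈ (Ico (2 ^ i) (2 ^ (i + 1))).filter (fun n => n ∈ E), 1 / (n : ℝ) := by
      rw [sum_filter]
      refine sum_congr rfl fun n _ => ?_
      rw [Set.indicator_apply]
    rw [h3]
    have h4 : ∑ n ∈ (Ico (2 ^ i) (2 ^ (i + 1))).filter (fun n => n ∈ E), 1 / (n : ℝ) ≤
        (((Ico (2 ^ i) (2 ^ (i + 1))).filter (fun n => n ∈ E)).card : ℝ) * (1 / 2 ^ i) := by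
      rw [← nsmul_eq_mul]
      refine sum_le_card_nsmul _ _ _ fun n hn => ?_
      have h5 := (mem_Ico.1 (mem_filter.1 hn).1).1
      have h6 : (2 : ℝ) ^ i ≤ n := by exact_mod_cast h5
      exact one_div_le_one_div_of_le (by positivity) h6
    refine h4.trans ?_
    apply mul_le_mul_of_nonneg_right _ (by positivity)
    have h7 : ((Ico (2 ^ i) (2 ^ (i + 1))).filter (fun n => n ∈ E)).card ≤
        (E ∩ Set.Icc 1 (2 ^ (i + 1))).ncard := by
      rw [← Set.ncard_coe_finset]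
      apply Set.ncard_le_ncard _ ((Set.finite_Icc _ _).inter_of_right _)
      intro n hn
      rw [Finset.mem_coe, mem_filter, mem_Ico] at hn
      have : 1 ≤ 2 ^ i := Nat.one_le_two_pow
      exact ⟨hn.2, by omega, by omega⟩
    exact_mod_cast h7
  refine h2.trans ?_
  have h8 : Real.log ((2 ^ (i + 1) : ℕ) : ℝ) = ((i + 1 : ℕ) : ℝ) * Real.log 2 := by
    push_cast
    rw [Real.log_pow]
    push_cast
    ring
  rw [h8, Real.mul_rpow (by positivity) hl2.le] at h1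
  have h9 : 0 < ((i + 1 : ℕ) : ℝ) ^ (3 / 2 : ℝ) := by positivity
  have h10 : 0 < Real.log 2 ^ (3 / 2 : ℝ) := by positivity
  have h11 : C * (((2 ^ (i + 1) : ℕ) : ℝ) / (((i + 1 : ℕ) : ℝ) ^ (3 / 2 : ℝ) *
      Real.log 2 ^ (3 / 2 : ℝ))) ≤
      |C| * (((2 ^ (i + 1) : ℕ) : ℝ) / (((i + 1 : ℕ) : ℝ) ^ (3 / 2 : ℝ) *
      Real.log 2 ^ (3 / 2 : ℝ))) := by
    apply mul_le_mul_of_nonneg_right (le_abs_self C)
    positivity
  calc ((E ∩ Set.Icc 1 (2 ^ (i + 1))).ncard : ℝ) * (1 / 2 ^ i)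
      ≤ (|C| * (((2 ^ (i + 1) : ℕ) : ℝ) / (((i + 1 : ℕ) : ℝ) ^ (3 / 2 : ℝ) *
      Real.log 2 ^ (3 / 2 : ℝ)))) * (1 / 2 ^ i) := by
        apply mul_le_mul_of_nonneg_right (h1.trans h11) (by positivity)
    _ = _ := by
        rw [Nat.cast_pow]
        field_simp
        push_cast
        ring

theorem summable_of_count (E : Set ℕ) (C : ℝ) (h : ∀ x : ℕ, 3 ≤ x →
    (((E ∩ Set.Icc 1 x).ncard : ℕ) : ℝ) ≤ C * (x / Real.log x ^ (3 / 2 : ℝ))) :
    Summable (fun n : ℕ => E.indicator (fun n : ℕ => 1 / (n : ℝ)) n) := by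
  have hnn : ∀ n : ℕ, 0 ≤ E.indicator (fun n : ℕ => 1 / (n : ℝ)) n := by
    intro n
    apply Set.indicator_nonneg
    intro m _
    positivity
  have hs : Summable (fun i : ℕ => (2 * |C| / Real.log 2 ^ (3 / 2 : ℝ)) *
      (1 / ((i : ℝ)) ^ (3 / 2 : ℝ))) :=
    (Real.summable_one_div_nat_rpow.2 (by norm_num)).mul_left _
  have hl2 : 0 < Real.log 2 := Real.log_pos (by norm_num)
  set c : ℝ := 2 * |C| / Real.log 2 ^ (3 / 2 : ℝ) with hc
  have hc0 : 0 ≤ c := by positivity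
  have hpart : ∀ N : ℕ, ∑ n ∈ range (2 ^ (N + 1)), E.indicator (fun n : ℕ => 1 / (n : ℝ)) n ≤
      ∑ n ∈ range 2, E.indicator (fun n : ℕ => 1 / (n : ℝ)) n +
      ∑ i ∈ range (N + 2), c * (1 / ((i : ℝ)) ^ (3 / 2 : ℝ)) := by
    intro N
    induction N with
    | zero =>
      have : 0 ≤ ∑ i ∈ range (0 + 2), c * (1 / ((i : ℝ)) ^ (3 / 2 : ℝ)) :=
        sum_nonneg fun i _ => by positivity
      simpa using this
    | succ N ih =>
      rw [sum_range_succ (fun i : ℕ => c * (1 / ((i : ℝ)) ^ (3 / 2 : ℝ))) (N + 2)]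
      have h1 : ∑ n ∈ range (2 ^ (N + 1 + 1)), E.indicator (fun n : ℕ => 1 / (n : ℝ)) n =
          ∑ n ∈ range (2 ^ (N + 1)), E.indicator (fun n : ℕ => 1 / (n : ℝ)) n +
          ∑ n ∈ Ico (2 ^ (N + 1)) (2 ^ (N + 1 + 1)),
            E.indicator (fun n : ℕ => 1 / (n : ℝ)) n := by
        rw [sum_range_add_sum_Ico _ (Nat.pow_le_pow_right (by norm_num) (by omega))]
      rw [h1]
      have h2 := dyadic_block_le E C h (N + 1) (by omega)
      have h3 : ((N + 1 + 1 : ℕ) : ℝ) = ((N + 2 : ℕ) : ℝ) := rfl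
      rw [h3] at h2
      linarith
  refine summable_of_sum_range_le (c := ∑ n ∈ range 2, E.indicator (fun n : ℕ => 1 / (n : ℝ)) n +
      ∑' i : ℕ, c * (1 / ((i : ℝ)) ^ (3 / 2 : ℝ))) hnn fun n => ?_
  have h1 : n ≤ 2 ^ (n + 1) := (Nat.lt_two_pow_self).le.trans
    (Nat.pow_le_pow_right (by norm_num) (by omega))
  calc ∑ i ∈ range n, E.indicator (fun n : ℕ => 1 / (n : ℝ)) i
      ≤ ∑ i ∈ range (2 ^ (n + 1)), E.indicator (fun n : ℕ => 1 / (n : ℝ)) i :=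
        sum_le_sum_of_subset_of_nonneg (range_mono h1) fun i _ _ => hnn i
    _ ≤ _ := hpart n
    _ ≤ _ := by
        gcongr
        exact hs.sum_le_tsum _ fun i _ => by positivity

end Pool.Agent.TOS
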