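import Mathlib
import Pool.Agent.Helper24.PairBound

/-!
# TOS/Sieve: primes `q` such that `q - 1` has no prime factor in a finite set `T`

`Fsum_superstep`, `Fsum_super`: a larger weight at the primes of a finite set increases the sum.
-/

set_option autoImplicit false

namespace Pool.Agent.TOS

open Finset Nat Pool.Agent.Helper24

noncomputable section

/-- the part of `Fsum` of the squarefree numbers prime to `q` -/
def Hsum (Y q : ℕ) (g : ℕ → ℝ) : ℝ :=
  ∑ l ∈ (sqf Y).filter (fun l => ¬ q ∣ l), ∏ p ∈ l.primeFactors, g p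

theorem Hsum_nonneg {Y q : ℕ} {g : ℕ → ℝ} (h0 : ∀ p, p.Prime → 0 ≤ g p) : 0 ≤ Hsum Y q g :=
  sum_nonneg fun _ _ => prod_nonneg fun p hp => h0 p (Nat.prime_of_mem_primeFactors hp)

theorem Hsum_mono {Y Y' q : ℕ} (hY : Y ≤ Y') {g : ℕ → ℝ} (h0 : ∀ p, p.Prime → 0 ≤ g p) :
    Hsum Y q g ≤ Hsum Y' q g := by
  refine sum_le_sum_of_subset_of_nonneg ?_ fun _ _ _ =>
    prod_nonneg fun p hp => h0 p (Nat.prime_of_mem_primeFactors hp)
  intro l hl
  rw [mem_filter, mem_sqf] at hl ⊢
  exact ⟨⟨⟨hl.1.1.1, hl.1.1.2.trans hY⟩, hl.1.2⟩, hl.2⟩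

theorem Hsum_congr {Y q : ℕ} {g g' : ℕ → ℝ} (h : ∀ p, p ≠ q → g p = g' p) :
    Hsum Y q g = Hsum Y q g' := by
  refine sum_congr rfl fun l hl => prod_congr rfl fun p hp => h p ?_
  rintro rfl
  exact (mem_filter.1 hl).2 (Nat.dvd_of_mem_primeFactors hp)

theorem Fsum_eq (Y : ℕ) {q : ℕ} (hq : q.Prime) (g : ℕ → ℝ) :
    Fsum Y g = Hsum Y q g + g q * Hsum (Y / q) q g := by
  unfold Fsum Hsum
  rw [← sum_filter_add_sum_filter_not (sqf Y) (fun l => ¬ q ∣ l)]
  congr 1
  rw [mul_sum]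
  symm
  refine sum_bij' (fun l _ => q * l) (fun l _ => l / q) ?_ ?_ ?_ ?_ ?_
  · intro l hl
    rw [mem_filter, mem_sqf] at hl
    rw [mem_filter, mem_sqf]
    have h1 := (Nat.le_div_iff_mul_le hq.pos).1 hl.1.1.2
    refine ⟨⟨⟨Nat.mul_pos hq.pos hl.1.1.1, by rw [mul_comm]; exact h1⟩, ?_⟩, ?_⟩
    · rw [Nat.squarefree_mul_iff]
      exact ⟨(Nat.Prime.coprime_iff_not_dvd hq).2 hl.2, hq.prime.squarefree, hl.1.2⟩
    · exact not_not.2 (dvd_mul_right _ _)
  · intro l hl
    rw [mem_filter, mem_sqf, not_not] at hl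
    obtain ⟨⟨⟨h1, h2⟩, h3⟩, l', rfl⟩ := hl
    rw [Nat.mul_div_cancel_left _ hq.pos, mem_filter, mem_sqf]
    rw [Nat.squarefree_mul_iff] at h3
    refine ⟨⟨⟨Nat.pos_of_ne_zero ?_, (Nat.le_div_iff_mul_le hq.pos).2 (by rwa [mul_comm])⟩, h3.2.2⟩,
      (Nat.Prime.coprime_iff_not_dvd hq).1 h3.1⟩
    rintro rfl
    simp at h1
  · intro l _
    exact Nat.mul_div_cancel_left _ hq.pos
  · intro l hl
    rw [mem_filter, not_not] at hl
    exact Nat.mul_div_cancel' hl.2
  · intro l hl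
    rw [mem_filter, mem_sqf] at hl
    have hl0 : l ≠ 0 := by omega
    have h4 : (q * l).primeFactors = insert q l.primeFactors := by
      rw [Nat.primeFactors_mul hq.ne_zero hl0, hq.primeFactors]
      rfl
    rw [h4, prod_insert]
    intro h
    exact hl.2 (Nat.dvd_of_mem_primeFactors h)

theorem Fsum_superstep (Y : ℕ) {q : ℕ} (hq : q.Prime) {g g' : ℕ → ℝ}
    (h0 : ∀ p, p.Prime → 0 ≤ g p) (h1 : ∀ p, p ≠ q → g' p = g p) (h2 : 0 ≤ g' q) :
    (1 + g' q) * Fsum (Y / q) g ≤ (1 + g q) * Fsum Y g' := by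
  have h0' : ∀ p, p.Prime → 0 ≤ g' p := by
    intro p hp
    by_cases h : p = q
    · rw [h]; exact h2
    · rw [h1 p h]; exact h0 p hp
  rw [Fsum_eq Y hq g', Fsum_eq (Y / q) hq g, Hsum_congr h1, Hsum_congr h1]
  have a1 : 0 ≤ Hsum (Y / q) q g := Hsum_nonneg h0
  have a2 : Hsum (Y / q) q g ≤ Hsum Y q g := Hsum_mono (Nat.div_le_self _ _) h0
  have a3 : Hsum (Y / q / q) q g ≤ Hsum (Y / q) q g := Hsum_mono (Nat.div_le_self _ _) h0
  have a4 := h0 q hq
  have e1 : Hsum (Y / q) q g + g q * Hsum (Y / q / q) q g ≤ (1 + g q) * Hsum (Y / q) q g := by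
    nlinarith
  have e2 : (1 + g' q) * Hsum (Y / q) q g ≤ Hsum Y q g + g' q * Hsum (Y / q) q g := by
    nlinarith
  calc (1 + g' q) * (Hsum (Y / q) q g + g q * Hsum (Y / q / q) q g)
      ≤ (1 + g' q) * ((1 + g q) * Hsum (Y / q) q g) := by gcongr
    _ = (1 + g q) * ((1 + g' q) * Hsum (Y / q) q g) := by ring
    _ ≤ _ := by
      have : 0 ≤ 1 + g q := by linarith
      gcongr

/-- the weights of the primes of `T` are `2 / (l - 2)`, the others are `1 / p` -/
def gT (T : Finset ℕ) (p : ℕ) : ℝ := if p ∈ T then 2 / ((p : ℝ) - 2) else 1 / (p : ℝ)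

theorem Fsum_super (T : Finset ℕ) (hT : ∀ l ∈ T, l.Prime ∧ 3 ≤ l) (Y : ℕ) :
    Fsum (Y / ∏ l ∈ T, l) (fun p => 1 / (p : ℝ)) ≤
      (∏ l ∈ T, (1 - 1 / (l : ℝ))) * Fsum Y (gT T) := by
  classical
  induction T using Finset.induction_on generalizing Y with
  | empty =>
    have h : gT ∅ = fun p : ℕ => 1 / (p : ℝ) := by
      funext p
      simp [gT]
    rw [h]
    simp
  | insert q T hqT ih =>
    have hq := hT q (mem_insert_self _ _)
    have hq3 : (3 : ℝ) ≤ q := by exact_mod_cast hq.2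
    have hT' : ∀ l ∈ T, l.Prime ∧ 3 ≤ l := fun l hl => hT l (mem_insert_of_mem hl)
    have h0 : ∀ p, p.Prime → 0 ≤ gT T p := by
      intro p hp
      unfold gT
      split_ifs with h
      · have : (3 : ℝ) ≤ p := by exact_mod_cast (hT' p h).2
        exact div_nonneg (by norm_num) (by linarith)
      · positivity
    have h1 : ∀ p, p ≠ q → gT (insert q T) p = gT T p := by
      intro p hp
      simp [gT, mem_insert, hp]
    have e1 : gT (insert q T) q = 2 / ((q : ℝ) - 2) := by simp [gT]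
    have e2 : gT T q = 1 / (q : ℝ) := by simp [gT, hqT]
    have h2 : 0 ≤ gT (insert q T) q := by
      rw [e1]
      exact div_nonneg (by norm_num) (by linarith)
    have h3 := Fsum_superstep Y hq.1 h0 h1 h2
    have h4 := ih hT' (Y / q)
    rw [prod_insert hqT, prod_insert hqT, ← Nat.div_div_eq_div_mul]
    refine h4.trans ?_
    have hP : 0 ≤ ∏ l ∈ T, (1 - 1 / (l : ℝ)) := by
      refine prod_nonneg fun l hl => ?_
      have : (3 : ℝ) ≤ l := by exact_mod_cast (hT' l hl).2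
      have h5 : 1 / (l : ℝ) ≤ 1 := by
        rw [div_le_one (by linarith)]
        linarith
      linarith
    have h6 : Fsum (Y / q) (gT T) ≤ (1 - 1 / (q : ℝ)) * Fsum Y (gT (insert q T)) := by
      rw [e1, e2] at h3
      have hF : 0 ≤ Fsum Y (gT (insert q T)) := by
        refine sum_nonneg fun l _ => prod_nonneg fun p hp => ?_
        by_cases h : p = q
        · rw [h]; exact h2
        · rw [h1 p h]; exact h0 p (Nat.prime_of_mem_primeFactors hp)
      have hF' : 0 ≤ Fsum (Y / q) (gT T) :=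
        sum_nonneg fun l _ => prod_nonneg fun p hp => h0 p (Nat.prime_of_mem_primeFactors hp)
      have e3 : 1 + 2 / ((q : ℝ) - 2) = q / (q - 2) := by
        have : (q : ℝ) - 2 ≠ 0 := by linarith
        field_simp
        ring
      rw [e3, div_mul_eq_mul_div, div_le_iff₀ (by linarith)] at h3
      have hq0 : (0 : ℝ) < q := by linarith
      have h7 : (1 + 1 / (q : ℝ)) * Fsum Y (gT (insert q T)) * (q - 2) ≤
          (q * (1 - 1 / (q : ℝ))) * Fsum Y (gT (insert q T)) := by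
        have e4 : (1 + 1 / (q : ℝ)) * (q - 2) ≤ q * (1 - 1 / (q : ℝ)) := by
          have e5 : q * (1 - 1 / (q : ℝ)) = q - 1 := by field_simp
          have e6 : (1 + 1 / (q : ℝ)) * (q - 2) = q - 1 - 2 / q := by
            field_simp
            ring
          rw [e5, e6]
          have : 0 ≤ 2 / (q : ℝ) := by positivity
          linarith
        nlinarith
      have h8 : (q : ℝ) * Fsum (Y / q) (gT T) ≤
          q * ((1 - 1 / (q : ℝ)) * Fsum Y (gT (insert q T))) := by
        refine (h3.trans h7).trans (le_of_eq (by ring))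
      exact le_of_mul_le_mul_left h8 hq0
    calc (∏ l ∈ T, (1 - 1 / (l : ℝ))) * Fsum (Y / q) (gT T)
        ≤ (∏ l ∈ T, (1 - 1 / (l : ℝ))) * ((1 - 1 / (q : ℝ)) * Fsum Y (gT (insert q T))) := by
          gcongr
      _ = _ := by ring

/-- the forbidden classes -/
def ΩT (T : Finset ℕ) (p : ℕ) : Finset ℕ := if p ∈ T then {0, 1} else {0}

/-- the primes `q ≤ X` such that no prime of `T` divides `q - 1` -/
def noT (T : Finset ℕ) (X : ℕ) : Finset ℕ := (primesLE X).filter fun q => ∀ l ∈ T, ¬ l ∣ q - 1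

theorem card_noT_le (T : Finset ℕ) (hT : ∀ l ∈ T, l.Prime ∧ 3 ≤ l) (X Y : ℕ)
    (hY : 2 * ∏ l ∈ T, l ≤ Y) :
    ((noT T X).card : ℝ) ≤ 2 * X * (∏ l ∈ T, (1 - 1 / (l : ℝ))) /
      Real.log ((Y / ∏ l ∈ T, l : ℕ) : ℝ) + (Y : ℝ) ^ 6 + Y := by
  classical
  have hM : 0 < ∏ l ∈ T, l := prod_pos fun l hl => (hT l hl).1.pos
  have hY1 : 1 ≤ Y := by omega
  have hYM : 2 ≤ Y / ∏ l ∈ T, l := (Nat.le_div_iff_mul_le hM).2 hY
  have hlog : 0 < Real.log ((Y / ∏ l ∈ T, l : ℕ) : ℝ) :=
    Real.log_pos (by exact_mod_cast (by omega : 1 < Y / ∏ l ∈ T, l))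
  set B := (noT T X).filter (fun q => Y < q) with hB
  have hΩ : ∀ p, Nat.Prime p → p ≤ Y → (∀ c ∈ ΩT T p, c < p) ∧ (ΩT T p).card < p := by
    intro p hp _
    unfold ΩT
    have h2 := hp.two_le
    split_ifs with h
    · have h3 := (hT p h).2
      refine ⟨fun c hc => ?_, ?_⟩
      · rw [mem_insert, mem_singleton] at hc
        omega
      · rw [card_pair (by norm_num)]
        omega
    · refine ⟨fun c hc => ?_, ?_⟩
      · rw [mem_singleton] at hc
        omega
      · rw [card_singleton]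
        omega
  have h1 := residue_sieve (A := 0) (M := X) hY1 hΩ B ?_ ?_
  rotate_left
  · intro q hq
    rw [hB, mem_filter, noT, mem_filter, mem_primesLE] at hq
    rw [mem_Ioc]
    exact ⟨hq.1.1.2.pos, by omega⟩
  · intro q hq p hp hpY
    rw [hB, mem_filter, noT, mem_filter, mem_primesLE] at hq
    obtain ⟨⟨⟨hqX, hqp⟩, hqT⟩, hqY⟩ := hq
    have h0 : q % p ≠ 0 := by
      intro h0
      have := (Nat.prime_dvd_prime_iff_eq hp hqp).1 (Nat.dvd_of_mod_eq_zero h0)
      omega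
    unfold ΩT
    split_ifs with h
    · rw [mem_insert, mem_singleton]
      rintro (h3 | h3)
      · exact h0 h3
      · refine hqT p h ?_
        exact (Nat.modEq_iff_dvd' hqp.one_le).1 (by
          rw [Nat.ModEq, h3, Nat.mod_eq_of_lt hp.one_lt])
    · rw [mem_singleton]
      exact h0
  set G := ∑ l ∈ (Icc 1 Y).filter Squarefree, hterm (ΩT T) l with hG
  have hGe : Fsum Y (gT T) ≤ G := by
    have e0 : G = Fsum Y (fun p => ((ΩT T p).card : ℝ) / ((p : ℝ) - (ΩT T p).card)) := rfl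
    rw [e0]
    refine Fsum_mono _ (fun p hp _ => ?_) (fun p hp _ => ?_)
    · unfold gT
      split_ifs with h
      · have : (3 : ℝ) ≤ p := by exact_mod_cast (hT p h).2
        exact div_nonneg (by norm_num) (by linarith)
      · positivity
    · unfold gT ΩT
      split_ifs with h
      · rw [card_pair (by norm_num)]
        push_cast
        exact le_rfl
      · rw [card_singleton]
        push_cast
        have h2 : (2 : ℝ) ≤ p := by exact_mod_cast hp.two_le
        exact one_div_le_one_div_of_le (by linarith) (by linarith)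
  have h2 := log_le_two_mul_Fsum_inv (Y / ∏ l ∈ T, l)
  have h3 := Fsum_super T hT Y
  set P := ∏ l ∈ T, (1 - 1 / (l : ℝ)) with hP
  have hP0 : 0 < P := by
    refine prod_pos fun l hl => ?_
    have : (3 : ℝ) ≤ l := by exact_mod_cast (hT l hl).2
    have h5 : 1 / (l : ℝ) < 1 := by
      rw [div_lt_one (by linarith)]
      linarith
    linarith
  have h4 : Real.log ((Y / ∏ l ∈ T, l : ℕ) : ℝ) ≤ 2 * (P * G) := by
    refine h2.trans ?_
    have : P * Fsum Y (gT T) ≤ P * G := by gcongr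
    linarith
  have hG0 : 0 < G := by
    by_contra hcon
    push Not at hcon
    have : P * G ≤ 0 := mul_nonpos_of_nonneg_of_nonpos hP0.le hcon
    linarith
  have h5 : (X : ℝ) / G ≤ 2 * X * P / Real.log ((Y / ∏ l ∈ T, l : ℕ) : ℝ) := by
    rw [div_le_div_iff₀ hG0 hlog]
    have hx : (0 : ℝ) ≤ X := by positivity
    nlinarith
  have h6 : (noT T X).card ≤ B.card + Y := by
    have hsub : noT T X ⊆ B ∪ Icc 1 Y := by
      intro q hq
      rw [mem_union]
      by_cases h : Y < q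
      · left
        rw [hB, mem_filter]
        exact ⟨hq, h⟩
      · right
        rw [noT, mem_filter, mem_primesLE] at hq
        rw [mem_Icc]
        exact ⟨hq.1.2.pos, not_lt.1 h⟩
    refine (card_le_card hsub).trans ((card_union_le _ _).trans ?_)
    simp
  have h7 : ((noT T X).card : ℝ) ≤ B.card + Y := by exact_mod_cast h6
  linarith

end

end Pool.Agent.TOS
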