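import Mathlib
import Pool.Agent.TOS.Sieve

/-!
# TOS/Recip: the primes `q` for which `q - 1` has few prime factors in a suitable finite set are rare
-/

set_option autoImplicit false

namespace Pool.Agent.TOS

open Finset Nat Pool.Agent.Helper24

noncomputable section

theorem block_le (T : Finset ℕ) (hT : ∀ l ∈ T, l.Prime ∧ 3 ≤ l) (j : ℕ)
    (hj : ∏ l ∈ T, l ≤ 2 ^ ((j + 1) / 2)) :
    ((noT T (2 ^ (12 * (j + 1)))).card : ℝ) / 2 ^ (12 * j) ≤
      24576 * (∏ l ∈ T, (1 - 1 / (l : ℝ))) / (j + 1) + 128 / 64 ^ j := by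
  set M := ∏ l ∈ T, l with hM
  have hM0 : 0 < M := prod_pos fun l hl => (hT l hl).1.pos
  set P := ∏ l ∈ T, (1 - 1 / (l : ℝ)) with hP
  have hP0 : 0 ≤ P := by
    refine prod_nonneg fun l hl => ?_
    have : (3 : ℝ) ≤ l := by exact_mod_cast (hT l hl).2
    have h5 : 1 / (l : ℝ) ≤ 1 := by
      rw [div_le_one (by linarith)]
      linarith
    linarith
  have h1 : 2 * M ≤ 2 ^ (j + 1) := by
    calc 2 * M ≤ 2 * 2 ^ ((j + 1) / 2) := by omega
      _ = 2 ^ ((j + 1) / 2 + 1) := by ring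
      _ ≤ 2 ^ (j + 1) := Nat.pow_le_pow_right (by norm_num) (by omega)
  have h2 := card_noT_le T hT (2 ^ (12 * (j + 1))) (2 ^ (j + 1)) h1
  rw [← hM, ← hP] at h2
  have h3 : 2 ^ ((j + 1) - (j + 1) / 2) ≤ 2 ^ (j + 1) / M := by
    rw [Nat.le_div_iff_mul_le hM0]
    calc 2 ^ ((j + 1) - (j + 1) / 2) * M ≤ 2 ^ ((j + 1) - (j + 1) / 2) * 2 ^ ((j + 1) / 2) :=
          Nat.mul_le_mul_left _ hj
      _ = 2 ^ (j + 1) := by
        rw [← pow_add]
        congr 1
        omega
  have h4 : ((j : ℝ) + 1) / 3 ≤ Real.log ((2 ^ (j + 1) / M : ℕ) : ℝ) := by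
    have e1 : Real.log ((2 : ℝ) ^ ((j + 1) - (j + 1) / 2)) ≤ Real.log ((2 ^ (j + 1) / M : ℕ) : ℝ) := by
      refine Real.log_le_log (by positivity) ?_
      exact_mod_cast h3
    refine le_trans ?_ e1
    rw [Real.log_pow]
    have e2 : ((j : ℝ) + 1) / 2 ≤ (((j + 1) - (j + 1) / 2 : ℕ) : ℝ) := by
      have : j + 1 ≤ 2 * ((j + 1) - (j + 1) / 2) := by omega
      have : ((j + 1 : ℕ) : ℝ) ≤ 2 * (((j + 1) - (j + 1) / 2 : ℕ) : ℝ) := by exact_mod_cast this
      push_cast at this ⊢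
      linarith
    have e3 := Real.log_two_gt_d9
    have e4 : (0 : ℝ) ≤ (j : ℝ) + 1 := by positivity
    nlinarith
  have hj0 : (0 : ℝ) < (j : ℝ) + 1 := by positivity
  have h5 : 2 * (((2 ^ (12 * (j + 1)) : ℕ)) : ℝ) * P / Real.log ((2 ^ (j + 1) / M : ℕ) : ℝ) ≤
      2 * (((2 ^ (12 * (j + 1)) : ℕ)) : ℝ) * P / (((j : ℝ) + 1) / 3) := by
    gcongr
  have h6 : (((2 ^ (j + 1) : ℕ)) : ℝ) ^ 6 + (((2 ^ (j + 1) : ℕ)) : ℝ) ≤ 128 * 64 ^ j := by
    have e1 : (((2 ^ (j + 1) : ℕ)) : ℝ) ≤ (((2 ^ (j + 1) : ℕ)) : ℝ) ^ 6 := by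
      have : (1 : ℝ) ≤ (((2 ^ (j + 1) : ℕ)) : ℝ) := by exact_mod_cast Nat.one_le_two_pow
      exact le_self_pow₀ this (by norm_num)
    have e2 : (((2 ^ (j + 1) : ℕ)) : ℝ) ^ 6 = 64 * 64 ^ j := by
      push_cast
      rw [← pow_mul, mul_comm (j + 1) 6, pow_mul, pow_succ]
      norm_num
      ring
    linarith
  rw [div_le_iff₀ (by positivity)]
  have e4 : (24576 * P / ((j : ℝ) + 1) + 128 / 64 ^ j) * 2 ^ (12 * j) =
      2 * (((2 ^ (12 * (j + 1)) : ℕ)) : ℝ) * P / (((j : ℝ) + 1) / 3) + 128 * 64 ^ j := by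
    have e5 : (2 : ℝ) ^ (12 * j) = 64 ^ j * 64 ^ j := by
      rw [← mul_pow, pow_mul]
      norm_num
    have e6 : (((2 ^ (12 * (j + 1)) : ℕ)) : ℝ) = 4096 * (64 ^ j * 64 ^ j) := by
      push_cast
      rw [mul_add, pow_add, e5]
      norm_num
      ring
    rw [e5, e6]
    field_simp
    ring
  rw [e4]
  linarith

/-- the sum of the reciprocals -/
theorem sum_noT_le (T : Finset ℕ) (hT : ∀ l ∈ T, l.Prime ∧ 3 ≤ l) :
    ∃ C : ℝ, 0 ≤ C ∧ ∀ X : ℕ, 3 ≤ X → ∑ q ∈ noT T X, 1 / (q : ℝ) ≤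
      24576 * (∏ l ∈ T, (1 - 1 / (l : ℝ))) * (Real.log (Real.log X) + 2) + C := by
  classical
  set M := ∏ l ∈ T, l with hM
  set P := ∏ l ∈ T, (1 - 1 / (l : ℝ)) with hP
  have hP0 : 0 ≤ P := by
    refine prod_nonneg fun l hl => ?_
    have : (3 : ℝ) ≤ l := by exact_mod_cast (hT l hl).2
    have h5 : 1 / (l : ℝ) ≤ 1 := by
      rw [div_le_one (by linarith)]
      linarith
    linarith
  set j0 := 2 * M with hj0
  refine ⟨4096 * j0 + 256, by positivity, fun X hX => ?_⟩
  set J := Nat.log 2 X / 12 with hJ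
  have ha : ∀ j, ((noT T (2 ^ (12 * (j + 1)))).card : ℝ) / 2 ^ (12 * j) ≤
      (if j < j0 then 4096 else 0) + 24576 * P * (1 / ((j : ℝ) + 1)) + 128 * (1 / 64) ^ j := by
    intro j
    by_cases h : j < j0
    · rw [if_pos h]
      have h1 : ((noT T (2 ^ (12 * (j + 1)))).card : ℝ) ≤ 2 ^ (12 * (j + 1)) := by
        have e1 : noT T (2 ^ (12 * (j + 1))) ⊆ Icc 1 (2 ^ (12 * (j + 1))) := by
          intro q hq
          rw [noT, mem_filter, mem_primesLE] at hq
          rw [mem_Icc]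
          exact ⟨hq.1.2.pos, hq.1.1⟩
        have e2 := card_le_card e1
        rw [Nat.card_Icc, Nat.add_sub_cancel] at e2
        exact_mod_cast e2
      have h2 : ((noT T (2 ^ (12 * (j + 1)))).card : ℝ) / 2 ^ (12 * j) ≤ 4096 := by
        rw [div_le_iff₀ (by positivity)]
        refine h1.trans (le_of_eq ?_)
        rw [mul_add, pow_add]
        norm_num
        ring
      have h3 : 0 ≤ 24576 * P * (1 / ((j : ℝ) + 1)) := by positivity
      have h4 : (0 : ℝ) ≤ 128 * (1 / 64) ^ j := by positivity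
      linarith
    · rw [if_neg h, zero_add]
      have hle : M ≤ 2 ^ ((j + 1) / 2) := by
        calc M ≤ 2 ^ M := Nat.lt_two_pow_self.le
          _ ≤ 2 ^ ((j + 1) / 2) := Nat.pow_le_pow_right (by norm_num) (by omega)
      refine (block_le T hT j hle).trans (le_of_eq ?_)
      rw [← hP, one_div_pow]
      ring
  have hX0 : X ≠ 0 := by omega
  have hmaps : ∀ q ∈ noT T X, Nat.log 2 q / 12 ∈ range (J + 1) := by
    intro q hq
    rw [noT, mem_filter, mem_primesLE] at hq
    rw [mem_range, Nat.lt_succ_iff]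
    exact Nat.div_le_div_right (Nat.log_mono_right hq.1.1)
  rw [← sum_fiberwise_of_maps_to hmaps]
  have hfib : ∀ j ∈ range (J + 1), ∑ q ∈ (noT T X).filter (fun q => Nat.log 2 q / 12 = j), 1 / (q : ℝ) ≤
      (if j < j0 then 4096 else 0) + 24576 * P * (1 / ((j : ℝ) + 1)) + 128 * (1 / 64) ^ j := by
    intro j _
    refine le_trans ?_ (ha j)
    have h1 : ∀ q ∈ (noT T X).filter (fun q => Nat.log 2 q / 12 = j),
        2 ^ (12 * j) ≤ q ∧ q ∈ noT T (2 ^ (12 * (j + 1))) := by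
      intro q hq
      rw [mem_filter, noT, mem_filter, mem_primesLE] at hq
      obtain ⟨⟨⟨hqX, hqp⟩, hqT⟩, hqj⟩ := hq
      have hq0 : q ≠ 0 := hqp.ne_zero
      constructor
      · exact (Nat.pow_le_pow_right (by norm_num) (by omega)).trans (Nat.pow_log_le_self 2 hq0)
      · rw [noT, mem_filter, mem_primesLE]
        refine ⟨⟨?_, hqp⟩, hqT⟩
        have e1 := Nat.lt_pow_succ_log_self (b := 2) (by norm_num) q
        exact e1.le.trans (Nat.pow_le_pow_right (by norm_num) (by omega))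
    calc ∑ q ∈ (noT T X).filter (fun q => Nat.log 2 q / 12 = j), 1 / (q : ℝ)
        ≤ ∑ q ∈ (noT T X).filter (fun q => Nat.log 2 q / 12 = j), 1 / (2 : ℝ) ^ (12 * j) := by
          refine sum_le_sum fun q hq => ?_
          refine one_div_le_one_div_of_le (by positivity) ?_
          exact_mod_cast (h1 q hq).1
      _ = (((noT T X).filter (fun q => Nat.log 2 q / 12 = j)).card : ℝ) / 2 ^ (12 * j) := by
          rw [sum_const, nsmul_eq_mul]
          ring
      _ ≤ ((noT T (2 ^ (12 * (j + 1)))).card : ℝ) / 2 ^ (12 * j) := by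
          gcongr
          exact fun q hq => (h1 q hq).2
  refine (sum_le_sum hfib).trans ?_
  rw [sum_add_distrib, sum_add_distrib, ← mul_sum, ← mul_sum]
  have b1 : ∑ j ∈ range (J + 1), (if j < j0 then (4096 : ℝ) else 0) ≤ 4096 * j0 := by
    rw [← sum_filter, sum_const, nsmul_eq_mul]
    have : ((range (J + 1)).filter (fun j => j < j0)).card ≤ j0 := by
      have e1 : (range (J + 1)).filter (fun j => j < j0) ⊆ range j0 := by
        intro j hj
        rw [mem_filter] at hj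
        rw [mem_range]
        exact hj.2
      simpa using card_le_card e1
    have : (((range (J + 1)).filter (fun j => j < j0)).card : ℝ) ≤ j0 := by exact_mod_cast this
    linarith
  have b2 : ∑ j ∈ range (J + 1), 1 / ((j : ℝ) + 1) ≤ Real.log (Real.log X) + 2 := by
    have e1 : ∑ j ∈ range (J + 1), 1 / ((j : ℝ) + 1) = ((harmonic (J + 1) : ℚ) : ℝ) := by
      rw [harmonic]
      push_cast
      refine sum_congr rfl fun j _ => ?_
      rw [one_div]
    rw [e1]
    refine (harmonic_le_one_add_log (J + 1)).trans ?_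
    have hXr : (3 : ℝ) ≤ X := by exact_mod_cast hX
    have hlX : (1 : ℝ) ≤ Real.log X := by
      have e2 : Real.exp 1 ≤ X := (Real.exp_one_lt_d9.le.trans (by norm_num)).trans hXr
      rw [Real.le_log_iff_exp_le (by linarith)]
      exact e2
    have e3 : (((J + 1 : ℕ)) : ℝ) ≤ 2 * Real.log X := by
      have e4 : (J : ℝ) * (12 * Real.log 2) ≤ Real.log X := by
        have e5 : 2 ^ (12 * J) ≤ X := by
          refine (Nat.pow_le_pow_right (by norm_num) ?_).trans (Nat.pow_log_le_self 2 hX0)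
          omega
        have e6 : Real.log ((2 : ℝ) ^ (12 * J)) ≤ Real.log X :=
          Real.log_le_log (by positivity) (by exact_mod_cast e5)
        rw [Real.log_pow] at e6
        push_cast at e6
        linarith
      have e7 := Real.log_two_gt_d9
      have e8 : (0 : ℝ) ≤ J := by positivity
      push_cast
      nlinarith
    have e9 : Real.log (((J + 1 : ℕ)) : ℝ) ≤ Real.log 2 + Real.log (Real.log X) := by
      rw [← Real.log_mul (by norm_num) (by linarith)]
      exact Real.log_le_log (by positivity) e3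
    have e10 := Real.log_two_lt_d9
    linarith
  have b3 : ∑ j ∈ range (J + 1), ((1 : ℝ) / 64) ^ j ≤ 2 := by
    have e1 : ∑ j ∈ range (J + 1), ((1 : ℝ) / 64) ^ j ≤ ∑ j ∈ range (J + 1), ((1 : ℝ) / 2) ^ j := by
      refine sum_le_sum fun j _ => ?_
      gcongr
      norm_num
    refine e1.trans ?_
    have := sum_geometric_two_le (J + 1)
    simpa using this
  have b4 : 24576 * P * ∑ j ∈ range (J + 1), 1 / ((j : ℝ) + 1) ≤
      24576 * P * (Real.log (Real.log X) + 2) := by gcongr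
  linarith

end

end Pool.Agent.TOS
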