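import Mathlib
import Pool.Agent.TOS.Recip

/-!
# TOS/Few: for `z < 1` the mean of `z ^ (number of prime factors of q - 1 in S)` over the primes `q` is small
-/

set_option autoImplicit false

namespace Pool.Agent.TOS

open Finset Nat Pool.Agent.Helper24

noncomputable section

theorem exists_T (δ : ℝ) (hδ : 0 < δ) (N : ℕ) : ∃ T : Finset ℕ,
    (∀ l ∈ T, l.Prime ∧ 3 ≤ l) ∧ (∀ l ∈ T, N < l) ∧ ∏ l ∈ T, (1 - 1 / (l : ℝ)) ≤ δ := by
  classical
  obtain ⟨T, hT, hsum⟩ : ∃ T : Finset ℕ, (∀ l ∈ T, l.Prime ∧ max N 2 < l) ∧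
      - Real.log δ ≤ ∑ l ∈ T, 1 / (l : ℝ) := by
    by_contra hcon
    push Not at hcon
    apply not_summable_one_div_on_primes
    refine summable_of_sum_le (c := (max N 2 + 1 : ℕ) + |(- Real.log δ)|) (fun n => ?_) fun u => ?_
    · exact Set.indicator_nonneg (fun _ _ => by positivity) n
    · have h1 : ∑ x ∈ u, Set.indicator {p | Nat.Prime p} (fun n : ℕ => 1 / (n : ℝ)) x =
          ∑ x ∈ u.filter Nat.Prime, 1 / (x : ℝ) := by
        rw [sum_filter]
        refine sum_congr rfl fun x _ => ?_
        simp [Set.indicator]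
      rw [h1, ← sum_filter_add_sum_filter_not (u.filter Nat.Prime) (fun l => max N 2 < l), add_comm]
      refine add_le_add ?_ ?_
      · have h2 : ((u.filter Nat.Prime).filter (fun l => ¬ max N 2 < l)) ⊆ range (max N 2 + 1) := by
          intro l hl
          rw [mem_filter] at hl
          rw [mem_range]
          omega
        calc ∑ x ∈ (u.filter Nat.Prime).filter (fun l => ¬ max N 2 < l), 1 / (x : ℝ)
            ≤ ∑ x ∈ (u.filter Nat.Prime).filter (fun l => ¬ max N 2 < l), (1 : ℝ) := by
              refine sum_le_sum fun x hx => ?_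
              rw [mem_filter, mem_filter] at hx
              have : (1 : ℝ) ≤ x := by exact_mod_cast hx.1.2.one_le
              rw [div_le_one (by linarith)]
              exact this
          _ = (((u.filter Nat.Prime).filter (fun l => ¬ max N 2 < l)).card : ℝ) := by simp
          _ ≤ ((max N 2 + 1 : ℕ) : ℝ) := by
              have := card_le_card h2
              rw [card_range] at this
              exact_mod_cast this
      · have h2 := hcon ((u.filter Nat.Prime).filter (fun l => max N 2 < l)) (by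
          intro l hl
          rw [mem_filter, mem_filter] at hl
          exact ⟨hl.1.2, hl.2⟩)
        exact h2.le.trans (le_abs_self _)
  refine ⟨T, fun l hl => ⟨(hT l hl).1, ?_⟩, fun l hl => ?_, ?_⟩
  · have := (hT l hl).2
    omega
  · have := (hT l hl).2
    omega
  · calc ∏ l ∈ T, (1 - 1 / (l : ℝ)) ≤ ∏ l ∈ T, Real.exp (-(1 / (l : ℝ))) := by
          refine prod_le_prod (fun l hl => ?_) fun l _ => ?_
          · have : (1 : ℝ) ≤ l := by exact_mod_cast (hT l hl).1.one_le
            have h5 : 1 / (l : ℝ) ≤ 1 := by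
              rw [div_le_one (by linarith)]
              exact this
            linarith
          · have := Real.add_one_le_exp (-(1 / (l : ℝ)))
            linarith
      _ = Real.exp (-∑ l ∈ T, 1 / (l : ℝ)) := by
          rw [← Real.exp_sum, sum_neg_distrib]
      _ ≤ Real.exp (Real.log δ) := by
          refine Real.exp_le_exp.2 ?_
          linarith
      _ = δ := Real.exp_log hδ

/-- the primes `q ≤ X` with less than `R` primes of `S` dividing `q - 1` -/
def fewS (S : Finset ℕ) (R X : ℕ) : Finset ℕ :=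
  (primesLE X).filter fun q => (S.filter (· ∣ q - 1)).card < R

theorem loglog_nonneg {X : ℕ} (hX : 3 ≤ X) : 0 ≤ Real.log (Real.log X) := by
  have hXr : (3 : ℝ) ≤ X := by exact_mod_cast hX
  have hlX : (1 : ℝ) ≤ Real.log X := by
    have e2 : Real.exp 1 ≤ X := (Real.exp_one_lt_d9.le.trans (by norm_num)).trans hXr
    rw [Real.le_log_iff_exp_le (by linarith)]
    exact e2
  exact Real.log_nonneg hlX

theorem few_le (δ : ℝ) (hδ : 0 < δ) (R : ℕ) : ∃ S : Finset ℕ, (∀ l ∈ S, l.Prime ∧ 3 ≤ l) ∧
    ∃ C : ℝ, 0 ≤ C ∧ ∀ X : ℕ, 3 ≤ X → ∑ q ∈ fewS S R X, 1 / (q : ℝ) ≤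
      R * (δ * (Real.log (Real.log X) + 2)) + C := by
  classical
  induction R with
  | zero =>
    refine ⟨∅, by simp, 0, le_rfl, fun X hX => ?_⟩
    simp [fewS]
  | succ R ih =>
    obtain ⟨S, hS, C, hC, hle⟩ := ih
    obtain ⟨T, hT, hTN, hTδ⟩ := exists_T (δ / 24576) (by positivity) (S.sup id)
    obtain ⟨C', hC', hle'⟩ := sum_noT_le T hT
    have hdis : Disjoint S T := by
      rw [disjoint_left]
      intro l hl hlT
      have h1 : id l ≤ S.sup id := Finset.le_sup hl
      have h2 := hTN l hlT
      rw [id] at h1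
      omega
    refine ⟨S ∪ T, fun l hl => ?_, C + C', by positivity, fun X hX => ?_⟩
    · rcases mem_union.1 hl with h | h
      · exact hS l h
      · exact hT l h
    · have hsub : fewS (S ∪ T) (R + 1) X ⊆ fewS S R X ∪ noT T X := by
        intro q hq
        rw [fewS, mem_filter] at hq
        rw [mem_union, fewS, mem_filter, noT, mem_filter]
        by_cases h : (S.filter (· ∣ q - 1)).card < R
        · exact Or.inl ⟨hq.1, h⟩
        · right
          refine ⟨hq.1, fun l hl hd => ?_⟩
          have h1 : ((S ∪ T).filter (· ∣ q - 1)).card =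
              (S.filter (· ∣ q - 1)).card + (T.filter (· ∣ q - 1)).card := by
            rw [filter_union, card_union_of_disjoint]
            exact disjoint_filter_filter hdis
          have h2 : 0 < (T.filter (· ∣ q - 1)).card :=
            card_pos.2 ⟨l, mem_filter.2 ⟨hl, hd⟩⟩
          omega
      have h0 := loglog_nonneg hX
      calc ∑ q ∈ fewS (S ∪ T) (R + 1) X, 1 / (q : ℝ)
          ≤ ∑ q ∈ fewS S R X ∪ noT T X, 1 / (q : ℝ) :=
            sum_le_sum_of_subset_of_nonneg hsub fun _ _ _ => by positivity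
        _ ≤ ∑ q ∈ fewS S R X, 1 / (q : ℝ) + ∑ q ∈ noT T X, 1 / (q : ℝ) := by
            rw [← sum_union_inter]
            have : 0 ≤ ∑ q ∈ fewS S R X ∩ noT T X, 1 / (q : ℝ) := sum_nonneg fun _ _ => by positivity
            linarith
        _ ≤ (R * (δ * (Real.log (Real.log X) + 2)) + C) +
            (24576 * (∏ l ∈ T, (1 - 1 / (l : ℝ))) * (Real.log (Real.log X) + 2) + C') :=
            add_le_add (hle X hX) (hle' X hX)
        _ ≤ (R * (δ * (Real.log (Real.log X) + 2)) + C) +
            (24576 * (δ / 24576) * (Real.log (Real.log X) + 2) + C') := by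
            have h3 : 0 ≤ Real.log (Real.log X) + 2 := by linarith
            gcongr
        _ = _ := by
            push_cast
            ring

/-- number of prime factors in `S`, with multiplicity -/
def wS (S : Finset ℕ) (n : ℕ) : ℕ := ∑ l ∈ S, n.factorization l

theorem z_sum (z ε : ℝ) (hz0 : 0 < z) (hz1 : z < 1) (hε : 0 < ε) : ∃ S : Finset ℕ,
    (∀ l ∈ S, l.Prime) ∧ 2 ∈ S ∧ ∃ C : ℝ, 0 ≤ C ∧ ∀ X : ℕ, 3 ≤ X →
      ∑ q ∈ primesLE X, z ^ wS S (q - 1) / (q : ℝ) ≤ ε * Real.log (Real.log X) + C := by
  classical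
  obtain ⟨R, hR⟩ := exists_pow_lt_of_lt_one (by positivity : 0 < ε / 2) hz1
  obtain ⟨S, hS, C, hC, hle⟩ := few_le (ε / (2 * (R + 1))) (by positivity) R
  refine ⟨insert 2 S, ?_, mem_insert_self _ _, ε * 6 + C, by positivity, fun X hX => ?_⟩
  · intro l hl
    rcases mem_insert.1 hl with h | h
    · rw [h]; exact Nat.prime_two
    · exact (hS l h).1
  have h0 := loglog_nonneg hX
  have h1 : ∀ q ∈ primesLE X, z ^ wS (insert 2 S) (q - 1) / (q : ℝ) ≤
      ε / 2 * (1 / (q : ℝ)) + if q ∈ fewS S R X then 1 / (q : ℝ) else 0 := by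
    intro q hq
    rw [mem_primesLE] at hq
    have hq2 := hq.2.two_le
    have hq0 : (0 : ℝ) < q := by exact_mod_cast hq.2.pos
    by_cases h : q ∈ fewS S R X
    · rw [if_pos h]
      have h2 : z ^ wS (insert 2 S) (q - 1) ≤ 1 := pow_le_one₀ hz0.le hz1.le
      have h3 : z ^ wS (insert 2 S) (q - 1) / (q : ℝ) ≤ 1 / q := by gcongr
      have h4 : 0 ≤ ε / 2 * (1 / (q : ℝ)) := by positivity
      linarith
    · rw [if_neg h, add_zero]
      have h2 : R ≤ (S.filter (· ∣ q - 1)).card := by
        by_contra hcon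
        push Not at hcon
        exact h (by
          rw [fewS, mem_filter, mem_primesLE]
          exact ⟨hq, hcon⟩)
      have h3 : (S.filter (· ∣ q - 1)).card ≤ wS (insert 2 S) (q - 1) := by
        unfold wS
        calc (S.filter (· ∣ q - 1)).card = ∑ l ∈ S.filter (· ∣ q - 1), 1 := by simp
          _ ≤ ∑ l ∈ S.filter (· ∣ q - 1), (q - 1).factorization l := by
              refine sum_le_sum fun l hl => ?_
              rw [mem_filter] at hl
              exact ((hS l hl.1).1.dvd_iff_one_le_factorization (by omega)).1 hl.2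
          _ ≤ ∑ l ∈ insert 2 S, (q - 1).factorization l := by
              refine sum_le_sum_of_subset ?_
              exact (filter_subset _ _).trans (subset_insert _ _)
      have h4 : z ^ wS (insert 2 S) (q - 1) ≤ ε / 2 :=
        (pow_le_pow_of_le_one hz0.le hz1.le (h2.trans h3)).trans hR.le
      rw [div_eq_mul_one_div]
      gcongr
  refine (sum_le_sum h1).trans ?_
  rw [sum_add_distrib, ← mul_sum, ← sum_filter]
  have h2 := sum_inv_primes_le X (by omega)
  have h3 : (primesLE X).filter (fun q => q ∈ fewS S R X) = fewS S R X := by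
    ext q
    rw [mem_filter]
    constructor
    · exact fun h => h.2
    · intro h
      refine ⟨?_, h⟩
      rw [fewS, mem_filter] at h
      exact h.1
  rw [h3]
  have h4 := hle X hX
  have h5 : (R : ℝ) * (ε / (2 * (R + 1)) * (Real.log (Real.log X) + 2)) ≤
      ε / 2 * (Real.log (Real.log X) + 2) := by
    have e1 : (R : ℝ) * (ε / (2 * (R + 1))) ≤ ε / 2 := by
      rw [mul_div_assoc', div_le_div_iff₀ (by positivity) (by norm_num)]
      nlinarith
    have e2 : 0 ≤ Real.log (Real.log X) + 2 := by linarith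
    calc (R : ℝ) * (ε / (2 * (R + 1)) * (Real.log (Real.log X) + 2))
        = ((R : ℝ) * (ε / (2 * (R + 1)))) * (Real.log (Real.log X) + 2) := by ring
      _ ≤ _ := by gcongr
  have h6 : ε / 2 * ∑ q ∈ primesLE X, 1 / (q : ℝ) ≤ ε / 2 * (Real.log (Real.log X) + 3.4) := by
    gcongr
  nlinarith

end

end Pool.Agent.TOS
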