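import Mathlib
import Pool.Agent.TOS.Few

/-!
# TOS/Euler: the sum of `z ^ wS (φ m) / φ m`
-/

set_option autoImplicit false

namespace Pool.Agent.TOS

open Finset Nat Pool.Agent.Helper24

noncomputable section

theorem wS_mul (S : Finset ℕ) {m n : ℕ} (hm : m ≠ 0) (hn : n ≠ 0) :
    wS S (m * n) = wS S m + wS S n := by
  unfold wS
  rw [Nat.factorization_mul hm hn, ← sum_add_distrib]
  rfl

theorem wS_one (S : Finset ℕ) : wS S 1 = 0 := by simp [wS]

theorem wS_le_of_dvd (S : Finset ℕ) {m n : ℕ} (hn : n ≠ 0) (h : m ∣ n) : wS S m ≤ wS S n := by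
  obtain ⟨k, rfl⟩ := h
  rw [wS_mul S (left_ne_zero_of_mul hn) (right_ne_zero_of_mul hn)]
  omega

/-- the multiplicative function -/
def ft (S : Finset ℕ) (z : ℝ) (m : ℕ) : ℝ := z ^ wS S m.totient / (m.totient : ℝ)

theorem ft_one (S : Finset ℕ) (z : ℝ) : ft S z 1 = 1 := by simp [ft, wS_one]

theorem ft_nonneg (S : Finset ℕ) {z : ℝ} (hz : 0 ≤ z) (m : ℕ) : 0 ≤ ft S z m := by
  unfold ft
  positivity

theorem ft_mul (S : Finset ℕ) (z : ℝ) {m n : ℕ} (h : Nat.Coprime m n) :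
    ft S z (m * n) = ft S z m * ft S z n := by
  unfold ft
  rcases Nat.eq_zero_or_pos m with hm | hm
  · subst hm
    simp
  rcases Nat.eq_zero_or_pos n with hn | hn
  · subst hn
    simp
  rw [Nat.totient_mul h, wS_mul S (Nat.totient_pos.2 hm).ne' (Nat.totient_pos.2 hn).ne', pow_add]
  push_cast
  ring

theorem ft_pow_le (S : Finset ℕ) {z : ℝ} (hz0 : 0 ≤ z) (hz1 : z ≤ 1) {p : ℕ} (hp : p.Prime) (n : ℕ) :
    ft S z (p ^ (n + 1)) ≤ z ^ wS S (p - 1) / ((p : ℝ) - 1) * (1 / (p : ℝ)) ^ n := by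
  have hp2 : (2 : ℝ) ≤ p := by exact_mod_cast hp.two_le
  have hp1 : 1 ≤ p := hp.one_le
  unfold ft
  rw [Nat.totient_prime_pow_succ hp]
  have h1 : z ^ wS S (p ^ n * (p - 1)) ≤ z ^ wS S (p - 1) := by
    refine pow_le_pow_of_le_one hz0 hz1 (wS_le_of_dvd S ?_ (dvd_mul_left _ _))
    exact Nat.mul_ne_zero (pow_ne_zero _ hp.ne_zero) (by have := hp.two_le; omega)
  have h2 : ((p ^ n * (p - 1) : ℕ) : ℝ) = (p : ℝ) ^ n * ((p : ℝ) - 1) := by
    push_cast [Nat.cast_sub hp1]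
    ring
  have hpos : (0 : ℝ) < (p : ℝ) - 1 := by linarith
  have h3 : z ^ wS S (p - 1) / ((p : ℝ) - 1) * (1 / (p : ℝ)) ^ n =
      z ^ wS S (p - 1) / ((p : ℝ) ^ n * ((p : ℝ) - 1)) := by
    rw [one_div_pow]
    field_simp
  rw [h2, h3]
  gcongr

theorem ft_summable (S : Finset ℕ) {z : ℝ} (hz0 : 0 ≤ z) (hz1 : z ≤ 1) {p : ℕ} (hp : p.Prime) :
    Summable fun n : ℕ => ft S z (p ^ n) := by
  rw [← summable_nat_add_iff 1]
  have hp2 : (2 : ℝ) ≤ p := by exact_mod_cast hp.two_le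
  refine Summable.of_nonneg_of_le (fun n => ft_nonneg S hz0 _) (fun n => ft_pow_le S hz0 hz1 hp n) ?_
  refine (summable_geometric_of_lt_one (by positivity) ?_).mul_left _
  rw [div_lt_one (by linarith)]
  linarith

theorem ft_tsum_le (S : Finset ℕ) {z : ℝ} (hz0 : 0 ≤ z) (hz1 : z ≤ 1) {p : ℕ} (hp : p.Prime) :
    ∑' n : ℕ, ft S z (p ^ n) ≤ Real.exp (z ^ wS S (p - 1) / (p : ℝ) + 8 * (1 / (p : ℝ) ^ 2)) := by
  have hp2 : (2 : ℝ) ≤ p := by exact_mod_cast hp.two_le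
  have hs := ft_summable S hz0 hz1 hp
  have hlt : 1 / (p : ℝ) < 1 := by
    rw [div_lt_one (by linarith)]
    linarith
  rw [hs.tsum_eq_zero_add, pow_zero, ft_one]
  have h1 : ∑' n : ℕ, ft S z (p ^ (n + 1)) ≤
      ∑' n : ℕ, z ^ wS S (p - 1) / ((p : ℝ) - 1) * (1 / (p : ℝ)) ^ n := by
    refine Summable.tsum_le_tsum (fun n => ft_pow_le S hz0 hz1 hp n)
      ((summable_nat_add_iff 1).2 hs) ?_
    exact (summable_geometric_of_lt_one (by positivity) hlt).mul_left _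
  rw [tsum_mul_left, tsum_geometric_of_lt_one (by positivity) hlt] at h1
  have hpos : (0 : ℝ) < (p : ℝ) - 1 := by linarith
  set t := z ^ wS S (p - 1) with ht
  have ht0 : 0 ≤ t := by positivity
  have ht1 : t ≤ 1 := pow_le_one₀ hz0 hz1
  have h2 : t / ((p : ℝ) - 1) * (1 - 1 / (p : ℝ))⁻¹ ≤ t / p + 8 * (1 / (p : ℝ) ^ 2) := by
    have e1 : t / ((p : ℝ) - 1) * (1 - 1 / (p : ℝ))⁻¹ = t / p + t * ((2 * p - 1) / (p * (p - 1) ^ 2)) := by
      have e2 : (1 - 1 / (p : ℝ))⁻¹ = p / (p - 1) := by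
        rw [one_sub_div (by linarith), inv_div]
      rw [e2]
      field_simp
      ring
    rw [e1]
    have e3 : (2 * (p : ℝ) - 1) / (p * (p - 1) ^ 2) ≤ 8 * (1 / (p : ℝ) ^ 2) := by
      rw [mul_one_div, div_le_div_iff₀ (by positivity) (by positivity)]
      nlinarith [mul_pos hpos hpos, mul_nonneg (by linarith : (0 : ℝ) ≤ (p : ℝ) - 2) hpos.le]
    have e4 : 0 ≤ (2 * (p : ℝ) - 1) / (p * (p - 1) ^ 2) := by
      refine div_nonneg (by linarith) (by positivity)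
    nlinarith
  have h3 := Real.add_one_le_exp (t / (p : ℝ) + 8 * (1 / (p : ℝ) ^ 2))
  linarith

theorem sum_ft_le (S : Finset ℕ) {z : ℝ} (hz0 : 0 ≤ z) (hz1 : z ≤ 1) (D : ℕ) :
    ∑ m ∈ Icc 1 D, ft S z m ≤
      Real.exp (∑ q ∈ primesLE D, z ^ wS S (q - 1) / (q : ℝ) + 16) := by
  classical
  have hE := (EulerProduct.summable_and_hasSum_smoothNumbers_prod_primesBelow_tsum
    (f := ft S z) (ft_one S z) (fun h => ft_mul S z h) (fun hp => by
      have := ft_summable S hz0 hz1 hp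
      exact this.congr fun n => (Real.norm_of_nonneg (ft_nonneg S hz0 _)).symm) (D + 1)).2
  have h1 : ∑ m ∈ Icc 1 D, ft S z m ≤ ∏ p ∈ (D + 1).primesBelow, ∑' n : ℕ, ft S z (p ^ n) := by
    rw [← Finset.sum_subtype_of_mem (s := Icc 1 D) (p := (· ∈ (D + 1).smoothNumbers)) (ft S z) (by
      intro m hm
      rw [mem_Icc] at hm
      exact Nat.mem_smoothNumbers_of_lt hm.1 (by omega))]
    exact sum_le_hasSum _ (fun _ _ => ft_nonneg S hz0 _) hE
  refine h1.trans ?_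
  have h2 : (D + 1).primesBelow = primesLE D := by
    ext p
    rw [Nat.mem_primesBelow, mem_primesLE, Nat.lt_succ_iff]
  rw [h2]
  calc ∏ p ∈ primesLE D, ∑' n : ℕ, ft S z (p ^ n)
      ≤ ∏ p ∈ primesLE D, Real.exp (z ^ wS S (p - 1) / (p : ℝ) + 8 * (1 / (p : ℝ) ^ 2)) := by
        refine prod_le_prod (fun p _ => tsum_nonneg fun n => ft_nonneg S hz0 _) fun p hp => ?_
        exact ft_tsum_le S hz0 hz1 (mem_primesLE.1 hp).2
    _ = Real.exp (∑ p ∈ primesLE D, (z ^ wS S (p - 1) / (p : ℝ) + 8 * (1 / (p : ℝ) ^ 2))) := by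
        rw [Real.exp_sum]
    _ ≤ _ := by
        refine Real.exp_le_exp.2 ?_
        rw [sum_add_distrib, ← mul_sum]
        have h3 : ∑ p ∈ primesLE D, 1 / (p : ℝ) ^ 2 ≤ ∑ b ∈ Icc 1 D, 1 / (b : ℝ) ^ 2 := by
          refine sum_le_sum_of_subset_of_nonneg ?_ fun _ _ _ => by positivity
          intro p hp
          rw [mem_primesLE] at hp
          rw [mem_Icc]
          exact ⟨hp.2.pos, hp.1⟩
        have h4 := sum_inv_sq_le_two D
        linarith

end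

end Pool.Agent.TOS
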