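import Mathlib
import Pool.Agent.TOS.Euler

/-!
# TOS/Omega: few integers have many prime factors in a finite set
-/

set_option autoImplicit false

namespace Pool.Agent.TOS

open Finset Nat

noncomputable section

theorem wS_insert_mul {S : Finset ℕ} {l : ℕ} (hl : l.Prime) {n : ℕ} (hn : n ≠ 0) :
    wS (insert l S) (l * n) = wS (insert l S) n + 1 := by
  rw [wS_mul _ hl.ne_zero hn, add_comm]
  congr 1
  unfold wS
  rw [sum_eq_single l]
  · exact hl.factorization_self
  · intro b _ hb
    rw [hl.factorization, Finsupp.single_apply, if_neg (Ne.symm hb)]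
  · intro h
    exact absurd (mem_insert_self _ _) h

theorem sum_pow_wS_le (S : Finset ℕ) (hS : ∀ l ∈ S, l.Prime) (x : ℕ) :
    ∑ n ∈ Icc 1 x, (3 / 2 : ℝ) ^ wS S n ≤ 4 ^ S.card * x := by
  classical
  induction S using Finset.induction_on generalizing x with
  | empty => simp [wS]
  | insert l S hlS ih =>
    have hl := hS l (mem_insert_self _ _)
    have ih' := ih (fun p hp => hS p (mem_insert_of_mem hp))
    induction x using Nat.strong_induction_on with
    | _ x ihx =>
      rcases Nat.eq_zero_or_pos x with rfl | hx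
      · simp
      have hxl : x / l < x := Nat.div_lt_self hx hl.one_lt
      have h1 := ihx _ hxl
      rw [← sum_filter_add_sum_filter_not (Icc 1 x) (fun n => ¬ l ∣ n)]
      have h2 : ∑ n ∈ (Icc 1 x).filter (fun n => ¬ l ∣ n), (3 / 2 : ℝ) ^ wS (insert l S) n ≤
          4 ^ S.card * x := by
        refine le_trans ?_ (ih' x)
        have e1 : ∑ n ∈ (Icc 1 x).filter (fun n => ¬ l ∣ n), (3 / 2 : ℝ) ^ wS (insert l S) n =
            ∑ n ∈ (Icc 1 x).filter (fun n => ¬ l ∣ n), (3 / 2 : ℝ) ^ wS S n := by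
          refine sum_congr rfl fun n hn => ?_
          rw [mem_filter] at hn
          congr 1
          unfold wS
          rw [sum_insert hlS, Nat.factorization_eq_zero_of_not_dvd hn.2, zero_add]
        rw [e1]
        exact sum_le_sum_of_subset_of_nonneg (filter_subset _ _) fun _ _ _ => by positivity
      have h3 : ∑ n ∈ (Icc 1 x).filter (fun n => ¬ ¬ l ∣ n), (3 / 2 : ℝ) ^ wS (insert l S) n ≤
          3 / 2 * ∑ n ∈ Icc 1 (x / l), (3 / 2 : ℝ) ^ wS (insert l S) n := by
        rw [mul_sum]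
        refine le_of_eq ?_
        refine sum_bij' (fun n _ => n / l) (fun n _ => l * n) ?_ ?_ ?_ ?_ ?_
        · intro n hn
          rw [mem_filter, mem_Icc, not_not] at hn
          obtain ⟨⟨h4, h5⟩, k, rfl⟩ := hn
          rw [Nat.mul_div_cancel_left _ hl.pos, mem_Icc]
          refine ⟨Nat.pos_of_ne_zero ?_, (Nat.le_div_iff_mul_le hl.pos).2 (by rwa [mul_comm])⟩
          rintro rfl
          simp at h4
        · intro n hn
          rw [mem_Icc] at hn
          rw [mem_filter, mem_Icc, not_not]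
          refine ⟨⟨Nat.mul_pos hl.pos hn.1, ?_⟩, dvd_mul_right _ _⟩
          rw [mul_comm]
          exact (Nat.le_div_iff_mul_le hl.pos).1 hn.2
        · intro n hn
          rw [mem_filter, not_not] at hn
          exact Nat.mul_div_cancel' hn.2
        · intro n _
          exact Nat.mul_div_cancel_left _ hl.pos
        · intro n hn
          rw [mem_filter, mem_Icc, not_not] at hn
          obtain ⟨⟨h4, h5⟩, k, rfl⟩ := hn
          have hk : k ≠ 0 := by
            rintro rfl
            simp at h4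
          rw [Nat.mul_div_cancel_left _ hl.pos, wS_insert_mul hl hk, pow_succ]
          ring
      have h4 : ((x / l : ℕ) : ℝ) ≤ x / 2 := by
        have e1 : ((x / l : ℕ) : ℝ) ≤ (x : ℝ) / l := Nat.cast_div_le
        have e2 : (2 : ℝ) ≤ l := by exact_mod_cast hl.two_le
        have e3 : (x : ℝ) / l ≤ x / 2 := by gcongr
        linarith
      have h5 : 3 / 2 * ∑ n ∈ Icc 1 (x / l), (3 / 2 : ℝ) ^ wS (insert l S) n ≤
          3 / 2 * (4 ^ (insert l S).card * (x / 2)) := by
        have : ∑ n ∈ Icc 1 (x / l), (3 / 2 : ℝ) ^ wS (insert l S) n ≤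
            4 ^ (insert l S).card * (x / 2) := h1.trans (by gcongr)
        linarith
      rw [card_insert_of_notMem hlS, pow_succ] at h5 ⊢
      linarith

theorem card_wS_le (S : Finset ℕ) (hS : ∀ l ∈ S, l.Prime) (x K : ℕ) :
    (((Icc 1 x).filter (fun n => K ≤ wS S n)).card : ℝ) ≤ 4 ^ S.card * x * (2 / 3) ^ K := by
  have h1 := sum_pow_wS_le S hS x
  have h2 : (((Icc 1 x).filter (fun n => K ≤ wS S n)).card : ℝ) * (3 / 2) ^ K ≤
      ∑ n ∈ Icc 1 x, (3 / 2 : ℝ) ^ wS S n := by
    calc (((Icc 1 x).filter (fun n => K ≤ wS S n)).card : ℝ) * (3 / 2) ^ K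
        = ∑ n ∈ (Icc 1 x).filter (fun n => K ≤ wS S n), (3 / 2 : ℝ) ^ K := by
          rw [sum_const, nsmul_eq_mul]
      _ ≤ ∑ n ∈ (Icc 1 x).filter (fun n => K ≤ wS S n), (3 / 2 : ℝ) ^ wS S n := by
          refine sum_le_sum fun n hn => ?_
          exact pow_le_pow_right₀ (by norm_num) (mem_filter.1 hn).2
      _ ≤ _ := sum_le_sum_of_subset_of_nonneg (filter_subset _ _) fun _ _ _ => by positivity
  have h3 : (0 : ℝ) < (3 / 2) ^ K := by positivity
  have h4 : ((2 : ℝ) / 3) ^ K = ((3 / 2 : ℝ) ^ K)⁻¹ := by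
    rw [← inv_pow]
    norm_num
  rw [h4, ← div_eq_mul_inv, le_div_iff₀ h3]
  exact h2.trans h1

end

end Pool.Agent.TOS
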