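import Mathlib
import Pool.Agent.TOS.Omega
import Pool.Agent.Helper54.TotCount

/-!
# TOS/Struct: primes of the form `φ(m)(r-1)+1`, weighted count (adapted from Helper54/TotCount)
-/

set_option autoImplicit false

namespace Pool.Agent.TOS

open Finset Nat Pool.Agent.Helper24 Pool.Agent.Helper54.Tot

noncomputable section

/-- primes `p ≤ x` of the form `φ(m)(r-1)+1`. -/
theorem card_structured_z (S0 : Finset ℕ) {z : ℝ} (hz0 : 0 < z) (hz1 : z ≤ 1) (x J Z K : ℕ) (hZ : 2 ≤ Z) (hx : 3 ≤ x) (P : ℝ)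
    (hP : ∀ a : ℕ, 2 ≤ a → a ≤ x → ∏ p ∈ (a * (a - 1)).primeFactors, (1 + 1 / (p : ℝ)) ≤ P)
    (S : Finset ℕ)
    (hS : ∀ p ∈ S, p ≤ x ∧ p.Prime ∧
      ∃ m r : ℕ, r.Prime ∧ (Z ^ 5) ^ 3 < r ∧ 3 ≤ m ∧ m.primeFactors.card ≤ J ∧
      p = m.totient * (r - 1) + 1 ∧ wS S0 (p - 1) ≤ K) :
    (S.card : ℝ) ≤ 8 * x * P / (Real.log Z) ^ 2 *
        ((z ^ K)⁻¹ * ∑ m ∈ Icc 1 (2 ^ J * x), ft S0 z m) + 2 ^ J * x / Z ^ 3 := by
  classical
  set D := 2 ^ J * x / Z ^ 15 with hD
  set T := ((few J D).filter (fun m => 3 ≤ m ∧ m.totient * Z ^ 15 ≤ x ∧ wS S0 m.totient ≤ K)) with hT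
  have hZ15 : (Z ^ 5) ^ 3 = Z ^ 15 := by ring
  have hZ0 : 0 < Z ^ 15 := by positivity
  have hZ2 : Z ^ 2 ≤ Z ^ 15 := Nat.pow_le_pow_right (by omega) (by norm_num)
  have hsub : S ⊆ T.biUnion (fun m =>
      (((Ioc 0 (x / m.totient + 1)).filter
        (fun r => r.Prime ∧ Z ^ 2 < r ∧ (m.totient * (r - 1) + 1).Prime)).image
        (fun r => m.totient * (r - 1) + 1))) := by
    intro p hp
    obtain ⟨hpx, hpp, m, r, hr, hrZ, hm3, hmJ, hpe, hpK⟩ := hS p hp
    rw [hZ15] at hrZ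
    have hm0 : 0 < m.totient := Nat.totient_pos.2 (by omega)
    have h1 : m.totient * Z ^ 15 ≤ m.totient * (r - 1) := Nat.mul_le_mul_left _ (by omega)
    have h2 : m.totient * Z ^ 15 ≤ x := by omega
    rw [mem_biUnion]
    refine ⟨m, ?_, ?_⟩
    · rw [hT, mem_filter, few, mem_filter, mem_Icc]
      refine ⟨⟨⟨by omega, ?_⟩, hmJ⟩, hm3, h2, le_trans (wS_le_of_dvd S0 ?_ ⟨r - 1, ?_⟩) hpK⟩
      rotate_left
      · have := hpp.two_le
        omega
      · omega
      rw [hD, Nat.le_div_iff_mul_le hZ0]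
      calc m * Z ^ 15 ≤ (2 ^ m.primeFactors.card * m.totient) * Z ^ 15 :=
            Nat.mul_le_mul_right _ (le_two_pow_mul_totient m)
        _ ≤ (2 ^ J * m.totient) * Z ^ 15 := by
            refine Nat.mul_le_mul_right _ (Nat.mul_le_mul_right _ ?_)
            exact Nat.pow_le_pow_right (by norm_num) hmJ
        _ = 2 ^ J * (m.totient * Z ^ 15) := by ring
        _ ≤ 2 ^ J * x := Nat.mul_le_mul_left _ h2
    · rw [mem_image]
      refine ⟨r, ?_, hpe.symm⟩
      rw [mem_filter, mem_Ioc]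
      refine ⟨⟨hr.pos, ?_⟩, hr, by omega, by rwa [← hpe]⟩
      have : r - 1 ≤ x / m.totient := by
        rw [Nat.le_div_iff_mul_le hm0, mul_comm]
        omega
      omega
  have h1 : (S.card : ℝ) ≤ ∑ m ∈ T, ((((Ioc 0 (x / m.totient + 1)).filter
        (fun r => r.Prime ∧ Z ^ 2 < r ∧ (m.totient * (r - 1) + 1).Prime))).card : ℝ) := by
    have : S.card ≤ ∑ m ∈ T, (((Ioc 0 (x / m.totient + 1)).filter
        (fun r => r.Prime ∧ Z ^ 2 < r ∧ (m.totient * (r - 1) + 1).Prime))).card :=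
      (card_le_card hsub).trans (card_biUnion_le.trans (sum_le_sum fun b _ => card_image_le))
    exact_mod_cast this
  have hP0 : 0 ≤ P := by
    refine le_trans ?_ (hP 2 le_rfl (by omega))
    exact prod_nonneg fun _ _ => by positivity
  have hlog : 0 < Real.log Z := Real.log_pos (by exact_mod_cast (by omega : 1 < Z))
  have h2 : ∀ m ∈ T, ((((Ioc 0 (x / m.totient + 1)).filter
        (fun r => r.Prime ∧ Z ^ 2 < r ∧ (m.totient * (r - 1) + 1).Prime))).card : ℝ) ≤
      8 * x * P / (Real.log Z) ^ 2 * (1 / (m.totient : ℝ)) + (Z : ℝ) ^ 12 := by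
    intro m hm
    rw [hT, mem_filter, few, mem_filter, mem_Icc] at hm
    obtain ⟨_, hm3, hmx, _⟩ := hm
    have ha2 : 2 ≤ m.totient := by
      have he := Nat.totient_even (by omega : 2 < m)
      have hp : 0 < m.totient := Nat.totient_pos.2 (by omega)
      obtain ⟨k, hk⟩ := he
      omega
    have hax : m.totient ≤ x := le_trans (Nat.le_mul_of_pos_right _ hZ0) hmx
    have e1 := card_shifted_pairs ha2 (x / m.totient + 1) Z hZ
    refine e1.trans (add_le_add ?_ le_rfl)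
    have ha0 : (0 : ℝ) < m.totient := by exact_mod_cast (by omega : 0 < m.totient)
    have e2 : (((x / m.totient + 1 : ℕ)) : ℝ) ≤ 2 * x / m.totient := by
      have := Nat.cast_div_le (α := ℝ) (m := x) (n := m.totient)
      have h1' : (1 : ℝ) ≤ x / m.totient := by
        rw [le_div_iff₀ ha0, one_mul]
        exact_mod_cast hax
      push_cast
      have h3 : 2 * (x : ℝ) / m.totient = x / m.totient + x / m.totient := by ring
      rw [h3]
      linarith
    have e3 := hP m.totient ha2 hax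
    calc 4 * (((x / m.totient + 1 : ℕ)) : ℝ) *
          (∏ p ∈ (m.totient * (m.totient - 1)).primeFactors, (1 + 1 / (p : ℝ))) /
            (Real.log Z) ^ 2
        ≤ 4 * (2 * x / m.totient) * P / (Real.log Z) ^ 2 := by
          gcongr
      _ = _ := by ring
  have h3 := h1.trans (sum_le_sum h2)
  rw [sum_add_distrib, ← mul_sum, sum_const, nsmul_eq_mul] at h3
  have h4 : ∑ m ∈ T, 1 / (m.totient : ℝ) ≤ (z ^ K)⁻¹ * ∑ m ∈ Icc 1 (2 ^ J * x), ft S0 z m := by
    rw [mul_sum]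
    have hzK : 0 < z ^ K := by positivity
    calc ∑ m ∈ T, 1 / (m.totient : ℝ) ≤ ∑ m ∈ T, (z ^ K)⁻¹ * ft S0 z m := by
          refine sum_le_sum fun m hm => ?_
          rw [hT, mem_filter] at hm
          have e1 : z ^ K ≤ z ^ wS S0 m.totient := pow_le_pow_of_le_one hz0.le hz1 hm.2.2.2
          unfold ft
          rw [← mul_div_assoc]
          have e2 : 1 ≤ (z ^ K)⁻¹ * z ^ wS S0 m.totient := by
            rw [inv_mul_eq_div, one_le_div hzK]
            exact e1
          gcongr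
      _ ≤ _ := by
          refine sum_le_sum_of_subset_of_nonneg ?_ fun m _ _ =>
            mul_nonneg (by positivity) (ft_nonneg S0 hz0.le m)
          intro m hm
          rw [hT, mem_filter, few, mem_filter, mem_Icc] at hm
          rw [mem_Icc]
          exact ⟨hm.1.1.1, hm.1.1.2.trans (Nat.div_le_self _ _)⟩
  have h5 : (T.card : ℝ) ≤ 2 ^ J * x / Z ^ 15 := by
    have e1 : T.card ≤ D := by
      have : T ⊆ Icc 1 D := by
        intro m hm
        rw [hT, mem_filter, few, mem_filter] at hm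
        exact hm.1.1
      simpa using card_le_card this
    have e2 : (D : ℝ) ≤ 2 ^ J * x / Z ^ 15 := by
      have := Nat.cast_div_le (α := ℝ) (m := 2 ^ J * x) (n := Z ^ 15)
      push_cast at this
      exact this
    exact le_trans (by exact_mod_cast e1) e2
  have hZr : (0 : ℝ) < Z := by exact_mod_cast (by omega : 0 < Z)
  have h6 : (T.card : ℝ) * (Z : ℝ) ^ 12 ≤ 2 ^ J * (x : ℝ) / (Z : ℝ) ^ 3 := by
    calc (T.card : ℝ) * (Z : ℝ) ^ 12 ≤ (2 ^ J * (x : ℝ) / (Z : ℝ) ^ 15) * (Z : ℝ) ^ 12 := by gcongr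
      _ = 2 ^ J * (x : ℝ) / (Z : ℝ) ^ 3 := by
        have : (Z : ℝ) ^ 15 = Z ^ 3 * Z ^ 12 := by ring
        rw [this]
        field_simp
  have h7 : 0 ≤ 8 * x * P / (Real.log Z) ^ 2 := by positivity
  have h8 := mul_le_mul_of_nonneg_left h4 h7
  linarith

end

end Pool.Agent.TOS
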