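import Mathlib
import Pool.Agent.TOS.Struct

/-!
# TOS/Exc: the explicit upper bound for the number of exceptional primes
-/

set_option autoImplicit false

namespace Pool.Agent.TOS

open Finset Nat Pool.Agent.Helper24 Pool.Agent.Helper54.Tot

noncomputable section

theorem card_exc_le_z (S0 : Finset ℕ) (hS0 : ∀ l ∈ S0, l.Prime) (h2S : 2 ∈ S0) {z : ℝ}
    (hz0 : 0 < z) (hz1 : z ≤ 1) (x K Z : ℕ) (hZ : 2 ≤ Z) (hx : 3 ≤ x) (P : ℝ)
    (hP : ∀ a : ℕ, 2 ≤ a → a ≤ x → ∏ p ∈ (a * (a - 1)).primeFactors, (1 + 1 / (p : ℝ)) ≤ P) :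
    ((exc x).card : ℝ) ≤ 4 ^ S0.card * x * (2 / 3) ^ (K + 1) +
      (((Z : ℝ) ^ 15) ^ (K + 1) + 1) + 2 * x / Z ^ 5 +
      (8 * x * P / (Real.log Z) ^ 2 *
        ((z ^ K)⁻¹ * ∑ m ∈ Icc 1 (2 ^ (K + 1) * x), ft S0 z m) + 2 ^ (K + 1) * x / Z ^ 3) := by
  classical
  set S1 := (primesLE x).filter (fun p => K + 1 ≤ wS S0 (p - 1)) with hS1
  set S2 := Icc 1 (((Z ^ 5) ^ 3) ^ (K + 1) + 1) with hS2
  set S3 := (exc x).filter (fun p => ∃ b : ℕ, Z ^ 5 < b ∧ b ^ 2 ≤ 2 * (b ^ 2).totient ∧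
    (b ^ 2).totient ∣ p - 1) with hS3
  set S4 := (exc x).filter (fun p => ∃ m r : ℕ, r.Prime ∧ (Z ^ 5) ^ 3 < r ∧ 3 ≤ m ∧
    m.primeFactors.card ≤ K + 1 ∧ p = m.totient * (r - 1) + 1 ∧ wS S0 (p - 1) ≤ K) with hS4
  have hsub : exc x ⊆ ((S1 ∪ S2) ∪ S3) ∪ S4 := by
    intro p hp
    have hp' := mem_exc.1 hp
    obtain ⟨⟨hpx, hpp⟩, q, hq1, hq2, hq3⟩ := hp'
    rw [mem_union, mem_union, mem_union]
    by_cases h1 : K + 1 ≤ wS S0 (p - 1)
    · left; left; left
      rw [hS1, mem_filter, mem_primesLE]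
      exact ⟨⟨hpx, hpp⟩, h1⟩
    have hp1 : p - 1 ≠ 0 := by
      have := hpp.two_le
      omega
    have h1' : ¬ 2 ^ (K + 1) ∣ p - 1 := by
      intro hd
      rw [Nat.prime_two.pow_dvd_iff_le_factorization hp1] at hd
      have h3 : (p - 1).factorization 2 ≤ wS S0 (p - 1) := by
        unfold wS
        exact single_le_sum (f := fun l => (p - 1).factorization l) (fun _ _ => Nat.zero_le _) h2S
      omega
    by_cases h2 : ((Z ^ 5) ^ 3) ^ (K + 1) + 1 < p
    · rcases trichotomy hpp (Nat.one_le_pow _ _ (by omega)) hq1 hq2 hq3 h2 h1' with h3 | h3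
      · left; right
        rw [hS3, mem_filter]
        exact ⟨hp, h3⟩
      · right
        rw [hS4, mem_filter]
        obtain ⟨m, r, a1, a2, a3, a4, a5⟩ := h3
        exact ⟨hp, m, r, a1, a2, a3, a4, a5, by omega⟩
    · left; left; right
      rw [hS2, mem_Icc]
      exact ⟨hpp.pos, not_lt.1 h2⟩
  have hc : (exc x).card ≤ S1.card + S2.card + S3.card + S4.card := by
    refine (card_le_card hsub).trans ((card_union_le _ _).trans (Nat.add_le_add_right ?_ _))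
    refine (card_union_le _ _).trans (Nat.add_le_add_right (card_union_le _ _) _)
  have hc' : ((exc x).card : ℝ) ≤ S1.card + S2.card + S3.card + S4.card := by
    exact_mod_cast hc
  have b1 : (S1.card : ℝ) ≤ 4 ^ S0.card * x * (2 / 3) ^ (K + 1) := by
    refine le_trans ?_ (card_wS_le S0 hS0 x (K + 1))
    have h1 : S1.card ≤ ((Icc 1 x).filter (fun n => K + 1 ≤ wS S0 n)).card := by
      refine card_le_card_of_injOn (fun p => p - 1) (fun p hp => ?_) fun p hp p' hp' h => ?_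
      · rw [mem_coe, hS1, mem_filter, mem_primesLE] at hp
        rw [mem_coe, mem_filter, mem_Icc]
        have := hp.1.2.two_le
        exact ⟨⟨by show 1 ≤ p - 1; omega, by show p - 1 ≤ x; omega⟩, hp.2⟩
      · rw [mem_coe, hS1, mem_filter, mem_primesLE] at hp hp'
        have h3 := hp.1.2.two_le
        have h4 := hp'.1.2.two_le
        have h5 : p - 1 = p' - 1 := h
        omega
    exact_mod_cast h1
  have b2 : (S2.card : ℝ) = ((Z : ℝ) ^ 15) ^ (K + 1) + 1 := by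
    rw [hS2, Nat.card_Icc]
    push_cast
    ring
  have b3 := card_squareful x (Z ^ 5) (Nat.one_le_pow _ _ (by omega)) S3 (by
    intro p hp
    rw [hS3, mem_filter, mem_exc] at hp
    exact ⟨hp.1.1.1, hp.1.1.2.two_le, hp.2⟩)
  have b4 := card_structured_z S0 hz0 hz1 x (K + 1) Z K hZ hx P hP S4 (by
    intro p hp
    rw [hS4, mem_filter, mem_exc] at hp
    exact ⟨hp.1.1.1, hp.1.1.2, hp.2⟩)
  push_cast at b3
  linarith

end

end Pool.Agent.TOS
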