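import Mathlib
import Pool.Agent.Helper54.TotAsymp

/-!
# TOS/Level: the sieve level for about `5 log log x` prime factors
-/

set_option autoImplicit false

namespace Pool.Agent.TOS

open Finset Nat Filter Pool.Agent.Helper54.Tot

noncomputable section

theorem tendsto_loglog_nat : Tendsto (fun x : ℕ => Real.log (Real.log x)) atTop atTop :=
  Real.tendsto_log_atTop.comp tendsto_log_nat

/-- powers of `log log x` are small compared with powers of `log x` -/
theorem eventually_loglog_pow (k : ℕ) (e c : ℝ) (he : 0 < e) (hc : 0 < c) :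
    ∀ᶠ x : ℕ in atTop, Real.log (Real.log x) ^ k ≤ c * Real.log x ^ e := by
  have h1 := (isLittleO_log_rpow_rpow_atTop (k : ℝ) he).bound hc
  have h2 := tendsto_log_nat.eventually h1
  filter_upwards [h2, tendsto_loglog_nat.eventually_ge_atTop 0,
    tendsto_log_nat.eventually_ge_atTop 0] with x h3 h4 h5
  rw [Real.rpow_natCast, Real.norm_of_nonneg (by positivity), Real.norm_of_nonneg (by positivity)] at h3
  exact h3

/-- the size of `(log x) ^ 2` -/
theorem eventually_log_sq : ∀ᶠ x : ℕ in atTop, (Real.log x) ^ 2 ≤ Real.sqrt x / 2 := by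
  have h1 := (isLittleO_log_rpow_atTop (r := 1 / 4) (by norm_num)).bound (c := 1 / 2) (by norm_num)
  have h2 := (tendsto_natCast_atTop_atTop (R := ℝ)).eventually h1
  filter_upwards [h2, tendsto_log_nat.eventually_ge_atTop 0] with x h3 h4
  have hx0 : (0 : ℝ) ≤ x := by positivity
  rw [Real.norm_of_nonneg h4, Real.norm_of_nonneg (by positivity)] at h3
  have h6 : Real.log x ^ 2 ≤ (1 / 2 * (x : ℝ) ^ (1 / 4 : ℝ)) ^ 2 := by gcongr
  have h7 : ((x : ℝ) ^ (1 / 4 : ℝ)) ^ 2 = Real.sqrt x := by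
    rw [← Real.rpow_natCast, ← Real.rpow_mul hx0, Real.sqrt_eq_rpow]
    norm_num
  rw [mul_pow, h7] at h6
  have h8 : 0 ≤ Real.sqrt x := by positivity
  nlinarith

theorem eventually_level : ∀ᶠ x : ℕ in atTop, ∃ K Z : ℕ, 2 ≤ Z ∧
    5 * Real.log (Real.log x) ≤ K ∧ (K : ℝ) ≤ 6 * Real.log (Real.log x) ∧
    Real.log x / (420 * Real.log (Real.log x)) ≤ Real.log Z ∧
    ((Z : ℝ) ^ 15) ^ (K + 1) + 1 ≤ x / (Real.log x) ^ 2 ∧ (Real.log x) ^ 3 ≤ Z := by
  filter_upwards [eventually_log_sq, eventually_loglog_pow 2 1 (1 / 10000) (by norm_num) (by norm_num),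
    tendsto_loglog_nat.eventually_ge_atTop 2, tendsto_log_nat.eventually_ge_atTop 2,
    eventually_ge_atTop 3] with x h1 h2 h3 h4 h5
  have hx3 : (3 : ℝ) ≤ x := by exact_mod_cast h5
  have hx0 : (0 : ℝ) < x := by linarith
  set L := Real.log x with hL
  set t := Real.log L with ht
  have hL0 : 0 < L := by linarith
  rw [Real.rpow_one] at h2
  obtain ⟨K, hK⟩ : ∃ K : ℕ, K = ⌈5 * t⌉₊ := ⟨_, rfl⟩
  have hK1 : 5 * t ≤ K := by rw [hK]; exact Nat.le_ceil _
  have hK2 : (K : ℝ) < 5 * t + 1 := by rw [hK]; exact Nat.ceil_lt_add_one (by linarith)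
  set w := Real.exp (L / (30 * (K + 1))) with hw
  have hK0 : (0 : ℝ) < (K : ℝ) + 1 := by positivity
  have hlogw : Real.log w = L / (30 * (K + 1)) := Real.log_exp _
  have hlogw2 : L / (210 * t) ≤ Real.log w := by
    rw [hlogw]
    refine div_le_div_of_nonneg_left hL0.le (by positivity) ?_
    linarith
  have hbig : 3 * t + 2 ≤ L / (210 * t) := by
    rw [le_div_iff₀ (by positivity)]
    nlinarith
  have hw0 : 0 < w := Real.exp_pos _
  have hL3 : L ^ 3 * 2 ≤ w := by
    have e1 : Real.log (L ^ 3 * 2) ≤ Real.log w := by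
      rw [Real.log_mul (by positivity) (by norm_num), Real.log_pow]
      have := Real.log_two_lt_d9
      push_cast
      linarith
    exact (Real.log_le_log_iff (by positivity) hw0).1 e1
  have hw4 : 16 ≤ w := by
    have : (2 : ℝ) ^ 3 ≤ L ^ 3 := by gcongr
    linarith
  have hfl : w / 2 ≤ (⌊w⌋₊ : ℝ) := by
    have := Nat.lt_floor_add_one w
    linarith
  refine ⟨K, ⌊w⌋₊, Nat.le_floor (by push_cast; linarith), hK1, by linarith, ?_, ?_, by linarith⟩
  · have h6 := Real.log_le_log (by positivity) hfl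
    rw [Real.log_div hw0.ne' (by norm_num)] at h6
    refine le_trans ?_ h6
    have h7 : L / (210 * t) = L / (420 * t) + L / (420 * t) := by
      field_simp
      ring
    have h8 : Real.log 2 ≤ L / (420 * t) := by
      have := Real.log_two_lt_d9
      linarith
    linarith
  · have h6 : (⌊w⌋₊ : ℝ) ≤ w := Nat.floor_le hw0.le
    have h7 : ((⌊w⌋₊ : ℝ) ^ 15) ^ (K + 1) ≤ (w ^ 15) ^ (K + 1) := by gcongr
    have h8 : (w ^ 15) ^ (K + 1) = Real.sqrt x := by
      rw [← pow_mul, hw, ← Real.exp_nat_mul, Real.sqrt_eq_rpow, Real.rpow_def_of_pos hx0, ← hL]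
      congr 1
      push_cast
      field_simp
      norm_num
    rw [h8] at h7
    have h9 : 0 ≤ Real.sqrt x := Real.sqrt_nonneg _
    have h10 : Real.sqrt x * Real.sqrt x = x := Real.mul_self_sqrt hx0.le
    rw [le_div_iff₀ (by positivity)]
    calc (((⌊w⌋₊ : ℝ) ^ 15) ^ (K + 1) + 1) * L ^ 2
        ≤ (Real.sqrt x + 1) * (Real.sqrt x / 2) := by
          refine mul_le_mul (by linarith) (by linarith) (by positivity) (by positivity)
      _ ≤ x := by nlinarith

end

end Pool.Agent.TOS
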