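import Mathlib
import Pool.Agent.TOS.Exc
import Pool.Agent.TOS.Level
import Pool.Agent.TOS.Few
import Pool.Agent.TOS.Euler

/-!
# TOS/Final: at most `C x / (log x) ^ (2 - ε)` exceptional primes up to `x`
-/

set_option autoImplicit false

namespace Pool.Agent.TOS

open Finset Nat Filter Pool.Agent.Helper24 Pool.Agent.Helper54.Tot

noncomputable section

theorem exp_two_fifths : Real.exp (2 / 5) ≤ 3 / 2 := by
  by_contra h
  push Not at h
  have h1 : (3 / 2 : ℝ) ^ 5 < Real.exp (2 / 5) ^ 5 := by gcongr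
  rw [← Real.exp_nat_mul] at h1
  have h2 : Real.exp (((5 : ℕ) : ℝ) * (2 / 5)) = Real.exp 1 ^ 2 := by
    rw [← Real.exp_nat_mul]
    norm_num
  rw [h2] at h1
  have h3 := Real.exp_one_lt_d9
  have h4 : Real.exp 1 ^ 2 < 2.7182818286 ^ 2 := by
    have := Real.exp_pos 1
    gcongr
  norm_num at h1 h4
  linarith

/-- `(2/3)^(K+1) ≤ L^(-2)` for `K ≥ 5 log L` -/
theorem two_thirds_pow (K : ℕ) (t : ℝ) (ht : 0 ≤ t) (hK : 5 * t ≤ K) :
    (2 / 3 : ℝ) ^ (K + 1) ≤ Real.exp (-(2 * t)) := by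
  have h1 : (2 / 3 : ℝ) ≤ Real.exp (-(2 / 5)) := by
    rw [Real.exp_neg]
    have := exp_two_fifths
    rw [show (2 / 3 : ℝ) = (3 / 2)⁻¹ by norm_num]
    exact inv_anti₀ (Real.exp_pos _) this
  calc (2 / 3 : ℝ) ^ (K + 1) ≤ (Real.exp (-(2 / 5))) ^ (K + 1) := by gcongr
    _ = Real.exp (((K + 1 : ℕ) : ℝ) * (-(2 / 5))) := by rw [Real.exp_nat_mul]
    _ ≤ _ := by
      apply Real.exp_le_exp.2
      push_cast
      linarith

/-- `2^(K+1) ≤ 2 L^6` for `K ≤ 6 log L` -/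
theorem two_pow_le (K : ℕ) (t : ℝ) (hK : (K : ℝ) ≤ 6 * t) :
    (2 : ℝ) ^ (K + 1) ≤ 2 * Real.exp (6 * t) := by
  have h1 : (2 : ℝ) ≤ Real.exp 1 := by
    have := Real.add_one_le_exp 1
    linarith
  calc (2 : ℝ) ^ (K + 1) = 2 * 2 ^ K := by ring
    _ ≤ 2 * (Real.exp 1) ^ K := by gcongr
    _ = 2 * Real.exp (K : ℝ) := by rw [← Real.exp_nat_mul, mul_one]
    _ ≤ _ := by
      apply mul_le_mul_of_nonneg_left _ (by norm_num)
      exact Real.exp_le_exp.2 hK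

/-- the estimate for one `x` -/
theorem exc_le_one (ε : ℝ) (hε : 0 < ε) (S0 : Finset ℕ) (hS0 : ∀ l ∈ S0, l.Prime) (h2S : 2 ∈ S0)
    (C1 : ℝ) (hz0 : 0 < Real.exp (-(ε / 24))) (hz1 : Real.exp (-(ε / 24)) < 1)
    (hsum : ∀ X : ℕ, 3 ≤ X → ∑ q ∈ primesLE X, Real.exp (-(ε / 24)) ^ wS S0 (q - 1) / (q : ℝ) ≤
      ε / 4 * Real.log (Real.log X) + C1) (x K Z : ℕ) (hx : 3 ≤ x) (hZ2 : 2 ≤ Z) (L t : ℝ)
    (hL : Real.log x = L) (htdef : Real.log L = t)
    (hK5 : 5 * t ≤ K) (hK6 : (K : ℝ) ≤ 6 * t)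
    (hZl : L / (420 * t) ≤ Real.log Z)
    (hZp : ((Z : ℝ) ^ 15) ^ (K + 1) + 1 ≤ x / L ^ 2) (hZL : L ^ 3 ≤ Z)
    (h2 : t ^ 3 ≤ L ^ (ε / 2)) (h3 : t ≤ 1 / 10 * L) (h4 : 1 ≤ t) (h5 : 10 ≤ L) :
    ((exc x).card : ℝ) ≤ (4 ^ S0.card + 1 + 2 +
      8 * 1080 * 420 ^ 2 * Real.exp (ε / 4 + C1 + 16) + 2) * (x * L ^ (ε - 2)) := by
  have hx3 : (3 : ℝ) ≤ x := by exact_mod_cast hx
  have hx0 : (0 : ℝ) < x := by linarith
  have hL0 : 0 < L := by linarith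
  have ht0 : 0 < t := by linarith
  have hLt : L = Real.exp t := by rw [← htdef, Real.exp_log hL0]
  have hLr : ∀ a : ℝ, L ^ a = Real.exp (a * t) := by
    intro a
    rw [Real.rpow_def_of_pos hL0, htdef, mul_comm]
  have hLn : ∀ n : ℕ, L ^ n = Real.exp (n * t) := by
    intro n
    rw [hLt, ← Real.exp_nat_mul]
  have hlogsq : Real.log ((x ^ 2 : ℕ) : ℝ) = 2 * L := by
    push_cast
    rw [Real.log_pow, hL]
    norm_num
  have hlog2L : Real.log (2 * L) ≤ t + 1 := by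
    rw [Real.log_mul (by norm_num) hL0.ne', htdef]
    have := Real.log_two_lt_d9
    linarith
  have hP : ∀ a : ℕ, 2 ≤ a → a ≤ x →
      ∏ p ∈ (a * (a - 1)).primeFactors, (1 + 1 / (p : ℝ)) ≤ 1080 * t := by
    intro a ha hax
    have hh : a * (a - 1) ≠ 0 := Nat.mul_ne_zero (by omega) (by omega)
    have hle : a * (a - 1) ≤ x ^ 2 := by
      rw [sq]
      exact Nat.mul_le_mul hax (by omega)
    have h3' : 3 ≤ x ^ 2 := by nlinarith
    have h6 := prod_le_of_le h3' hh hle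
    rw [hlogsq] at h6
    linarith
  have hmain := card_exc_le_z S0 hS0 h2S hz0 hz1.le x K Z hZ2 hx (1080 * t) hP
  have hZr : (2 : ℝ) ≤ Z := by exact_mod_cast hZ2
  have hZ0 : (0 : ℝ) < Z := by linarith
  -- the target
  obtain ⟨T, hT⟩ : ∃ T : ℝ, T = (x : ℝ) * L ^ (ε - 2) := ⟨_, rfl⟩
  rw [← hT]
  have hT2 : (x : ℝ) * Real.exp (-(2 * t)) ≤ T := by
    rw [hT, hLr]
    apply mul_le_mul_of_nonneg_left _ hx0.le
    apply Real.exp_le_exp.2
    nlinarith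
  have hL2 : (x : ℝ) / L ^ 2 = x * Real.exp (-(2 * t)) := by
    rw [hLn, Real.exp_neg, div_eq_mul_inv]
    norm_num
  -- first term
  have b1 : 4 ^ S0.card * (x : ℝ) * (2 / 3) ^ (K + 1) ≤ 4 ^ S0.card * T := by
    have e1 := two_thirds_pow K t ht0.le hK5
    calc 4 ^ S0.card * (x : ℝ) * (2 / 3) ^ (K + 1)
        ≤ 4 ^ S0.card * (x : ℝ) * Real.exp (-(2 * t)) := by gcongr
      _ = 4 ^ S0.card * ((x : ℝ) * Real.exp (-(2 * t))) := by ring
      _ ≤ _ := by gcongr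
  have b2 : (((Z : ℝ) ^ 15) ^ (K + 1) + 1) ≤ 1 * T := by
    rw [one_mul]
    rw [hL2] at hZp
    exact hZp.trans hT2
  have hZ3 : Real.exp (3 * t) ≤ Z := by
    have := hLn 3
    rw [this] at hZL
    exact_mod_cast hZL
  have b3 : 2 * (x : ℝ) / (Z : ℝ) ^ 5 ≤ 2 * T := by
    have e1 : Real.exp (2 * t) ≤ (Z : ℝ) ^ 5 := by
      calc Real.exp (2 * t) ≤ Real.exp (3 * t) := Real.exp_le_exp.2 (by linarith)
        _ ≤ Z := hZ3
        _ = (Z : ℝ) ^ 1 := (pow_one _).symm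
        _ ≤ (Z : ℝ) ^ 5 := pow_le_pow_right₀ (by linarith) (by norm_num)
    calc 2 * (x : ℝ) / (Z : ℝ) ^ 5 ≤ 2 * (x : ℝ) / Real.exp (2 * t) := by gcongr
      _ = 2 * ((x : ℝ) * Real.exp (-(2 * t))) := by
        rw [Real.exp_neg]
        ring
      _ ≤ _ := by gcongr
  have b5 : 2 ^ (K + 1) * (x : ℝ) / (Z : ℝ) ^ 3 ≤ 2 * T := by
    have e1 : Real.exp (9 * t) ≤ (Z : ℝ) ^ 3 := by
      calc Real.exp (9 * t) = Real.exp (3 * t) ^ 3 := by
            rw [← Real.exp_nat_mul]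
            congr 1
            push_cast
            ring
        _ ≤ _ := by gcongr
    have e2 := two_pow_le K t hK6
    calc 2 ^ (K + 1) * (x : ℝ) / (Z : ℝ) ^ 3
        ≤ (2 * Real.exp (6 * t)) * (x : ℝ) / Real.exp (9 * t) := by gcongr
      _ = 2 * ((x : ℝ) * Real.exp (-(3 * t))) := by
        have e3 : Real.exp (9 * t) = Real.exp (6 * t) * Real.exp (3 * t) := by
          rw [← Real.exp_add]
          congr 1
          ring
        rw [e3, Real.exp_neg]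
        field_simp
      _ ≤ 2 * ((x : ℝ) * Real.exp (-(2 * t))) := by
        gcongr
        norm_num
      _ ≤ _ := by gcongr
  -- fourth term
  have e6 : ((Real.exp (-(ε / 24)) ^ K)⁻¹ : ℝ) ≤ Real.exp (ε / 4 * t) := by
    rw [← Real.exp_nat_mul, ← Real.exp_neg]
    apply Real.exp_le_exp.2
    have : (K : ℝ) * (ε / 24) ≤ 6 * t * (ε / 24) := by gcongr
    linarith
  have e7 : ∑ m ∈ Icc 1 (2 ^ (K + 1) * x), ft S0 (Real.exp (-(ε / 24))) m ≤
      Real.exp (ε / 4 * t) * Real.exp (ε / 4 + C1 + 16) := by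
    refine (sum_ft_le S0 hz0.le hz1.le _).trans ?_
    rw [← Real.exp_add]
    apply Real.exp_le_exp.2
    have hD3 : 3 ≤ 2 ^ (K + 1) * x := by
      have : 1 ≤ 2 ^ (K + 1) := Nat.one_le_two_pow
      nlinarith
    have f1 := hsum _ hD3
    have f2 : Real.log ((2 ^ (K + 1) * x : ℕ) : ℝ) ≤ 2 * L := by
      push_cast
      rw [Real.log_mul (by positivity) hx0.ne', Real.log_pow, hL]
      have g1 := Real.log_two_lt_d9
      have g2 : ((K + 1 : ℕ) : ℝ) * Real.log 2 ≤ L := by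
        push_cast
        have g3 : ((K : ℝ) + 1) * Real.log 2 ≤ (6 * t + 1) * 1 := by
          apply mul_le_mul (by linarith) (by linarith) (Real.log_nonneg (by norm_num)) (by linarith)
        linarith
      linarith
    have f3 : Real.log (Real.log ((2 ^ (K + 1) * x : ℕ) : ℝ)) ≤ t + 1 := by
      refine le_trans (Real.log_le_log ?_ f2) hlog2L
      exact Real.log_pos (by exact_mod_cast (by omega : 1 < 2 ^ (K + 1) * x))
    have f4 : ε / 4 * Real.log (Real.log ((2 ^ (K + 1) * x : ℕ) : ℝ)) ≤ ε / 4 * (t + 1) := by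
      gcongr
    linarith
  have e8 : 0 ≤ ∑ m ∈ Icc 1 (2 ^ (K + 1) * x), ft S0 (Real.exp (-(ε / 24))) m :=
    sum_nonneg fun m _ => ft_nonneg _ hz0.le _
  have e9 : 0 < L / (420 * t) := by positivity
  have b4 : 8 * (x : ℝ) * (1080 * t) / (Real.log Z) ^ 2 *
      ((Real.exp (-(ε / 24)) ^ K)⁻¹ * ∑ m ∈ Icc 1 (2 ^ (K + 1) * x),
        ft S0 (Real.exp (-(ε / 24))) m) ≤
      8 * 1080 * 420 ^ 2 * Real.exp (ε / 4 + C1 + 16) * T := by
    calc 8 * (x : ℝ) * (1080 * t) / (Real.log Z) ^ 2 *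
          ((Real.exp (-(ε / 24)) ^ K)⁻¹ * ∑ m ∈ Icc 1 (2 ^ (K + 1) * x),
            ft S0 (Real.exp (-(ε / 24))) m)
        ≤ 8 * (x : ℝ) * (1080 * t) / (L / (420 * t)) ^ 2 *
          (Real.exp (ε / 4 * t) * (Real.exp (ε / 4 * t) * Real.exp (ε / 4 + C1 + 16))) := by
          gcongr
      _ = 8 * 1080 * 420 ^ 2 * Real.exp (ε / 4 + C1 + 16) *
          (x * (t ^ 3 * (Real.exp (ε / 4 * t) * Real.exp (ε / 4 * t) / L ^ 2))) := by
          field_simp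
      _ ≤ 8 * 1080 * 420 ^ 2 * Real.exp (ε / 4 + C1 + 16) *
          (x * (L ^ (ε / 2) * (Real.exp (ε / 4 * t) * Real.exp (ε / 4 * t) / L ^ 2))) := by
          gcongr
      _ = _ := by
          rw [hT, hLr, hLr, hLn, ← Real.exp_add, ← Real.exp_sub, ← Real.exp_add]
          congr 3
          push_cast
          ring
  calc ((exc x).card : ℝ) ≤ _ := hmain
    _ ≤ 4 ^ S0.card * T + 1 * T + 2 * T +
        (8 * 1080 * 420 ^ 2 * Real.exp (ε / 4 + C1 + 16) * T + 2 * T) := by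
        gcongr
    _ = _ := by ring

theorem exc_le_log (ε : ℝ) (hε : 0 < ε) : ∃ C : ℝ, 0 ≤ C ∧
    ∀ᶠ x : ℕ in atTop, ((exc x).card : ℝ) ≤ C * (x * Real.log x ^ (ε - 2)) := by
  have hz0 : 0 < Real.exp (-(ε / 24)) := Real.exp_pos _
  have hz1 : Real.exp (-(ε / 24)) < 1 := by
    rw [Real.exp_lt_one_iff]
    linarith
  obtain ⟨S0, hS0, h2S, C1, hC1, hsum⟩ := z_sum (Real.exp (-(ε / 24))) (ε / 4) hz0 hz1 (by linarith)
  refine ⟨4 ^ S0.card + 1 + 2 + 8 * 1080 * 420 ^ 2 * Real.exp (ε / 4 + C1 + 16) + 2,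
    by positivity, ?_⟩
  filter_upwards [eventually_level, eventually_loglog_pow 3 (ε / 2) 1 (by linarith) one_pos,
    eventually_loglog_pow 1 1 (1 / 10) one_pos (by norm_num),
    tendsto_loglog_nat.eventually_ge_atTop 1, tendsto_log_nat.eventually_ge_atTop 10,
    eventually_ge_atTop 3] with x h1 h2 h3 h4 h5 hx
  obtain ⟨K, Z, hZ2, hK5, hK6, hZl, hZp, hZL⟩ := h1
  rw [one_mul] at h2
  rw [pow_one, Real.rpow_one] at h3
  exact exc_le_one ε hε S0 hS0 h2S C1 hz0 hz1 hsum x K Z hx hZ2 _ _ rfl rfl hK5 hK6 hZl hZp hZL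
    h2 h3 h4 h5

end

end Pool.Agent.TOS
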